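import Mathlib

/-!
Averages of multiplicative functions close to one.
-/

set_option autoImplicit false

namespace Pool.Agent.H70.SP

open Finset

/-- product over the prime factors -/
noncomputable def Fp (K : ℝ) (m : ℕ) : ℝ := ∏ p ∈ m.primeFactors, (1 + K / (p : ℝ))

theorem Fp_one_le {K : ℝ} (hK : 0 ≤ K) (m : ℕ) : 1 ≤ Fp K m := by
  unfold Fp
  calc (1 : ℝ) = ∏ p ∈ m.primeFactors, (1 : ℝ) := by simp
    _ ≤ _ := prod_le_prod (fun _ _ => by norm_num) (fun p _ => by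
      have : 0 ≤ K / (p : ℝ) := by positivity
      linarith)

theorem sum_inv_sq_primes (M : ℕ) : ∑ p ∈ (Icc 1 M).filter Nat.Prime, 1 / (p : ℝ) ^ 2 ≤ 1 := by
  rcases Nat.eq_zero_or_pos M with h | h
  · subst h; simp
  · have h1 := sum_Ioc_inv_sq_le_sub (α := ℝ) (k := 1) (n := M) one_ne_zero h
    have h2 : ∑ p ∈ (Icc 1 M).filter Nat.Prime, 1 / (p : ℝ) ^ 2
        ≤ ∑ i ∈ Ioc 1 M, ((i : ℝ) ^ 2)⁻¹ := by
      simp only [one_div]
      refine sum_le_sum_of_subset_of_nonneg (fun p hp => ?_) (fun _ _ _ => by positivity)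
      rw [mem_filter, mem_Icc] at hp
      exact mem_Ioc.2 ⟨hp.2.one_lt, hp.1.2⟩
    have h3 : (0 : ℝ) ≤ (M : ℝ)⁻¹ := by positivity
    have h4 : ((1 : ℕ) : ℝ)⁻¹ = 1 := by simp
    rw [h4] at h1
    linarith

theorem avg_Fp (K : ℝ) (hK : 0 ≤ K) (M : ℕ) :
    ∑ m ∈ Icc 1 M, Fp K m ≤ M * Real.exp K := by
  classical
  set P := (Icc 1 M).filter Nat.Prime with hP
  have h1 : ∀ m ∈ Icc 1 M, Fp K m
      = ∑ T ∈ P.powerset, if T ⊆ m.primeFactors then ∏ p ∈ T, K / (p : ℝ) else 0 := by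
    intro m hm
    rw [mem_Icc] at hm
    unfold Fp
    rw [prod_one_add, ← sum_filter]
    refine sum_congr ?_ (fun _ _ => rfl)
    ext T
    rw [mem_filter, mem_powerset, mem_powerset]
    constructor
    · intro h
      refine ⟨fun p hp => ?_, h⟩
      have h2 := Nat.mem_primeFactors.1 (h hp)
      rw [hP, mem_filter, mem_Icc]
      exact ⟨⟨h2.1.one_lt.le, (Nat.le_of_dvd (by omega) h2.2.1).trans hm.2⟩, h2.1⟩
    · exact fun h => h.2
  rw [sum_congr rfl h1, sum_comm]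
  have h2 : ∀ T ∈ P.powerset, ∑ m ∈ Icc 1 M, (if T ⊆ m.primeFactors then ∏ p ∈ T, K / (p : ℝ) else 0)
      ≤ M * ∏ p ∈ T, (K * (1 / (p : ℝ) ^ 2)) := by
    intro T hT
    rw [mem_powerset] at hT
    have hTp : ∀ p ∈ T, p.Prime := fun p hp => (mem_filter.1 (hT hp)).2
    rw [← sum_filter, sum_const, nsmul_eq_mul]
    have hd : 0 < ∏ p ∈ T, p := prod_pos (fun p hp => (hTp p hp).pos)
    have hcard : ((Icc 1 M).filter (fun m => T ⊆ m.primeFactors)).card ≤ M / ∏ p ∈ T, p := by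
      have h3 : (Icc 1 M).filter (fun m => T ⊆ m.primeFactors)
          ⊆ (Ioc 0 M).filter (fun m => (∏ p ∈ T, p) ∣ m) := by
        intro m hm
        rw [mem_filter, mem_Icc] at hm
        rw [mem_filter, mem_Ioc]
        refine ⟨⟨by omega, hm.1.2⟩, ?_⟩
        exact Finset.prod_primes_dvd m (fun p hp => (hTp p hp).prime)
          (fun p hp => (Nat.mem_primeFactors.1 (hm.2 hp)).2.1)
      refine (card_le_card h3).trans ?_
      rw [Nat.Ioc_filter_dvd_card_eq_div]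
    have hcard' : ((((Icc 1 M).filter (fun m => T ⊆ m.primeFactors)).card : ℕ) : ℝ)
        ≤ M / ∏ p ∈ T, (p : ℝ) := by
      have h4 : ((((Icc 1 M).filter (fun m => T ⊆ m.primeFactors)).card : ℕ) : ℝ)
        ≤ ((M / ∏ p ∈ T, p : ℕ) : ℝ) := by exact_mod_cast hcard
      refine h4.trans (Nat.cast_div_le.trans ?_)
      push_cast
      exact le_rfl
    have hK0 : 0 ≤ ∏ p ∈ T, K / (p : ℝ) := prod_nonneg (fun p _ => by positivity)
    refine (mul_le_mul_of_nonneg_right hcard' hK0).trans (le_of_eq ?_)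
    have h5 : ∏ p ∈ T, (K * (1 / (p : ℝ) ^ 2)) = (∏ p ∈ T, K / (p : ℝ)) / ∏ p ∈ T, (p : ℝ) := by
      rw [← prod_div_distrib]
      refine prod_congr rfl (fun p hp => ?_)
      have : (p : ℝ) ≠ 0 := by exact_mod_cast (hTp p hp).ne_zero
      field_simp
    rw [h5]
    ring
  refine (sum_le_sum h2).trans ?_
  rw [← mul_sum, ← prod_one_add]
  refine mul_le_mul_of_nonneg_left ?_ (Nat.cast_nonneg M)
  calc ∏ p ∈ P, (1 + K * (1 / (p : ℝ) ^ 2)) ≤ ∏ p ∈ P, Real.exp (K * (1 / (p : ℝ) ^ 2)) := by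
        refine prod_le_prod (fun p _ => by positivity) (fun p _ => ?_)
        have := Real.add_one_le_exp (K * (1 / (p : ℝ) ^ 2))
        linarith
    _ = Real.exp (K * ∑ p ∈ P, 1 / (p : ℝ) ^ 2) := by rw [← Real.exp_sum, mul_sum]
    _ ≤ Real.exp K := by
        rw [Real.exp_le_exp]
        have := sum_inv_sq_primes M
        rw [← hP] at this
        nlinarith

/-- The local factor used below. -/
noncomputable def F (m : ℕ) : ℝ := ∏ p ∈ m.primeFactors, (1 + 2 / (p : ℝ)) ^ 4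

theorem F_one_le (m : ℕ) : 1 ≤ F m := by
  unfold F
  calc (1 : ℝ) = ∏ p ∈ m.primeFactors, (1 : ℝ) := by simp
    _ ≤ _ := prod_le_prod (fun _ _ => by norm_num) (fun p _ => one_le_pow₀ (by
      have : 0 ≤ 2 / (p : ℝ) := by positivity
      linarith))

theorem one_add_pow_le {t : ℝ} (h0 : 0 ≤ t) (h1 : t ≤ 1) (n : ℕ) :
    (1 + t) ^ n ≤ 1 + (2 ^ n - 1) * t := by
  induction n with
  | zero => simp
  | succ n ih =>
    have h2 : (1 : ℝ) ≤ 2 ^ n := one_le_pow₀ (by norm_num)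
    calc (1 + t) ^ (n + 1) = (1 + t) ^ n * (1 + t) := pow_succ _ _
      _ ≤ (1 + (2 ^ n - 1) * t) * (1 + t) := mul_le_mul_of_nonneg_right ih (by linarith)
      _ ≤ 1 + (2 ^ (n + 1) - 1) * t := by
          rw [pow_succ]
          nlinarith [mul_nonneg (sub_nonneg.2 h2) (mul_nonneg h0 (sub_nonneg.2 h1))]

theorem F_pow_le (m : ℕ) : F m ^ 4 ≤ Fp (2 ^ 17) m := by
  unfold F Fp
  rw [← prod_pow]
  refine prod_le_prod (fun p _ => by positivity) (fun p hp => ?_)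
  have hp2 : (2 : ℝ) ≤ p := by exact_mod_cast (Nat.prime_of_mem_primeFactors hp).two_le
  rw [← pow_mul]
  have h1 : 2 / (p : ℝ) ≤ 1 := by rw [div_le_one (by linarith)]; exact hp2
  have h2 := one_add_pow_le (by positivity : 0 ≤ 2 / (p : ℝ)) h1 (4 * 4)
  refine h2.trans ?_
  have h3 : (2 ^ (4 * 4) - 1 : ℝ) * (2 / p) = (2 ^ 17 - 2) / p := by
    norm_num; ring
  rw [h3]
  have : (2 ^ 17 - 2 : ℝ) / p ≤ 2 ^ 17 / p := div_le_div_of_nonneg_right (by norm_num) (by linarith)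
  linarith

theorem avg_F4 (M : ℕ) : ∑ m ∈ Icc 1 M, F m ^ 4 ≤ M * Real.exp (2 ^ 17) :=
  (sum_le_sum (fun m _ => F_pow_le m)).trans (avg_Fp _ (by positivity) M)

end Pool.Agent.H70.SP
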