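import Mathlib

/-!
Truncated inclusion-exclusion (Bonferroni) and truncated alternating sums of elementary
symmetric functions.
-/

set_option autoImplicit false

namespace Pool.Agent.H70.SP

open Finset

/-- truncated alternating sum -/
noncomputable def D (m : ℕ) (B : Finset ℕ) (x : ℕ → ℝ) : ℝ :=
  ∑ T ∈ B.powerset, if T.card ≤ m then (-1) ^ T.card * ∏ p ∈ T, x p else 0

theorem D_empty (m : ℕ) (x : ℕ → ℝ) : D m ∅ x = 1 := by
  simp [D]

theorem D_zero (B : Finset ℕ) (x : ℕ → ℝ) : D 0 B x = 1 := by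
  unfold D
  rw [sum_eq_single_of_mem ∅ (empty_mem_powerset B)]
  · simp
  · intro T _ hT
    have : T.card ≠ 0 := by simpa using hT
    rw [if_neg (by omega)]

theorem D_insert (m : ℕ) (B : Finset ℕ) (x : ℕ → ℝ) (p : ℕ) (hp : p ∉ B) :
    D (m + 1) (insert p B) x = D (m + 1) B x - x p * D m B x := by
  unfold D
  rw [sum_powerset_insert hp, mul_sum, sub_eq_add_neg, ← sum_neg_distrib]
  congr 1
  refine sum_congr rfl (fun T hT => ?_)
  have hpT : p ∉ T := fun h => hp (mem_powerset.1 hT h)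
  rw [card_insert_of_notMem hpT, prod_insert hpT]
  by_cases h : T.card ≤ m
  · rw [if_pos h, if_pos (by omega)]
    ring
  · rw [if_neg h, if_neg (by omega)]
    ring

/-- Bonferroni inequalities. -/
theorem bonf (B : Finset ℕ) (x : ℕ → ℝ) (h0 : ∀ p ∈ B, 0 ≤ x p) (h1 : ∀ p ∈ B, x p ≤ 1) :
    ∀ m : ℕ, 0 ≤ (-1) ^ m * (D m B x - ∏ p ∈ B, (1 - x p)) := by
  classical
  induction B using Finset.induction_on with
  | empty => intro m; simp [D_empty]
  | insert p B hp ih =>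
    have ih' := ih (fun q hq => h0 q (mem_insert_of_mem hq)) (fun q hq => h1 q (mem_insert_of_mem hq))
    intro m
    rw [prod_insert hp]
    have hx0 := h0 p (mem_insert_self _ _)
    have hx1 := h1 p (mem_insert_self _ _)
    cases m with
    | zero =>
      rw [D_zero]
      have h2 := ih' 0
      rw [D_zero] at h2
      simp only [pow_zero, one_mul] at h2 ⊢
      have h3 : 0 ≤ ∏ q ∈ B, (1 - x q) :=
        prod_nonneg (fun q hq => by have := h1 q (mem_insert_of_mem hq); linarith)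
      nlinarith
    | succ m =>
      rw [D_insert m B x p hp]
      have h2 := ih' (m + 1)
      have h3 := ih' m
      have h4 := mul_nonneg hx0 h3
      have : (-1 : ℝ) ^ (m + 1) * (D (m + 1) B x - x p * D m B x
          - (1 - x p) * ∏ q ∈ B, (1 - x q))
          = (-1) ^ (m + 1) * (D (m + 1) B x - ∏ q ∈ B, (1 - x q))
            + x p * ((-1) ^ m * (D m B x - ∏ q ∈ B, (1 - x q))) := by
        rw [pow_succ]; ring
      rw [this]
      linarith

theorem prod_le_D (b : ℕ) (B : Finset ℕ) (x : ℕ → ℝ) (h0 : ∀ p ∈ B, 0 ≤ x p)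
    (h1 : ∀ p ∈ B, x p ≤ 1) : ∏ p ∈ B, (1 - x p) ≤ D (2 * b) B x := by
  have h := bonf B x h0 h1 (2 * b)
  rw [pow_mul] at h
  simp at h
  linarith

theorem D_odd_le (b : ℕ) (B : Finset ℕ) (x : ℕ → ℝ) (h0 : ∀ p ∈ B, 0 ≤ x p)
    (h1 : ∀ p ∈ B, x p ≤ 1) : D (2 * b + 1) B x ≤ ∏ p ∈ B, (1 - x p) := by
  have h := bonf B x h0 h1 (2 * b + 1)
  rw [pow_succ, pow_mul] at h
  simp at h
  linarith

/-- The truncated sum exceeds the product by at most a small fraction. -/
theorem D_even_le (b : ℕ) (B : Finset ℕ) (x : ℕ → ℝ) (h0 : ∀ p ∈ B, 0 ≤ x p)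
    (h1 : ∀ p ∈ B, x p ≤ 1 / 2) (σ : ℝ) (hσ : ∑ p ∈ B, x p ≤ σ) :
    D (2 * b) B x ≤ (∏ p ∈ B, (1 - x p)) * (1 + (1 / 2) ^ (2 * b + 1) * Real.exp (4 * σ)) := by
  classical
  have h1' : ∀ p ∈ B, x p ≤ 1 := fun p hp => (h1 p hp).trans (by norm_num)
  have hodd := D_odd_le b B x h0 h1'
  -- the difference of consecutive truncations
  have hdiff : D (2 * b) B x - D (2 * b + 1) B x
      ≤ ∑ T ∈ B.powerset, (1 / 2) ^ (2 * b + 1) * ∏ p ∈ T, (2 * x p) := by
    unfold D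
    rw [← sum_sub_distrib]
    refine sum_le_sum (fun T hT => ?_)
    have hT' := mem_powerset.1 hT
    have hprod : 0 ≤ ∏ p ∈ T, (2 * x p) :=
      prod_nonneg (fun p hp => mul_nonneg (by norm_num) (h0 p (hT' hp)))
    have hrhs : 0 ≤ (1 / 2 : ℝ) ^ (2 * b + 1) * ∏ p ∈ T, (2 * x p) :=
      mul_nonneg (by positivity) hprod
    by_cases hc : T.card ≤ 2 * b
    · rw [if_pos hc, if_pos (by omega)]
      simpa using hrhs
    · by_cases hc2 : T.card ≤ 2 * b + 1
      · have hcard : T.card = 2 * b + 1 := by omega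
        rw [if_neg hc, if_pos hc2, prod_mul_distrib, prod_const, hcard]
        have : (-1 : ℝ) ^ (2 * b + 1) = -1 := by rw [pow_succ, pow_mul]; simp
        rw [this]
        have h2 : (1 / 2 : ℝ) ^ (2 * b + 1) * (2 ^ (2 * b + 1) * ∏ p ∈ T, x p) = ∏ p ∈ T, x p := by
          rw [← mul_assoc, ← mul_pow]; norm_num
        rw [h2]
        linarith
      · rw [if_neg hc, if_neg hc2]
        simpa using hrhs
  rw [← mul_sum, ← prod_one_add] at hdiff
  have hexp : ∏ p ∈ B, (1 + 2 * x p) ≤ Real.exp (2 * σ) := by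
    calc ∏ p ∈ B, (1 + 2 * x p) ≤ ∏ p ∈ B, Real.exp (2 * x p) := by
          refine prod_le_prod (fun p hp => by have := h0 p hp; linarith) (fun p hp => ?_)
          have := Real.add_one_le_exp (2 * x p); linarith
      _ = Real.exp (∑ p ∈ B, 2 * x p) := (Real.exp_sum _ _).symm
      _ ≤ Real.exp (2 * σ) := by
          rw [Real.exp_le_exp, ← mul_sum]; linarith
  have hinv : 1 ≤ (∏ p ∈ B, (1 - x p)) * Real.exp (2 * σ) := by
    have h2 : ∏ p ∈ B, Real.exp (-(2 * x p)) ≤ ∏ p ∈ B, (1 - x p) := by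
      refine prod_le_prod (fun p _ => (Real.exp_pos _).le) (fun p hp => ?_)
      have hx0 := h0 p hp
      have hx1 := h1 p hp
      rw [Real.exp_neg]
      refine inv_le_of_inv_le₀ (by linarith) ?_
      have h3 : 2 * x p + 1 ≤ Real.exp (2 * x p) := Real.add_one_le_exp _
      refine le_trans ?_ h3
      rw [inv_le_iff_one_le_mul₀ (by linarith)]
      nlinarith
    have h3 : ∏ p ∈ B, Real.exp (-(2 * x p)) = Real.exp (-(2 * ∑ p ∈ B, x p)) := by
      rw [← Real.exp_sum, sum_neg_distrib, mul_sum]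
    rw [h3] at h2
    have h4 : 1 = Real.exp (-(2 * ∑ p ∈ B, x p)) * Real.exp (2 * ∑ p ∈ B, x p) := by
      rw [← Real.exp_add]; simp
    have h5 : Real.exp (2 * ∑ p ∈ B, x p) ≤ Real.exp (2 * σ) := by
      rw [Real.exp_le_exp]; linarith
    calc (1 : ℝ) = Real.exp (-(2 * ∑ p ∈ B, x p)) * Real.exp (2 * ∑ p ∈ B, x p) := h4
      _ ≤ (∏ p ∈ B, (1 - x p)) * Real.exp (2 * σ) :=
          mul_le_mul h2 h5 (Real.exp_pos _).le ((Real.exp_pos _).le.trans h2)
  have hpos : (0 : ℝ) ≤ (1 / 2) ^ (2 * b + 1) := by positivity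
  have h6 : ∏ p ∈ B, (1 + 2 * x p) ≤ (∏ p ∈ B, (1 - x p)) * Real.exp (4 * σ) := by
    calc ∏ p ∈ B, (1 + 2 * x p) ≤ 1 * Real.exp (2 * σ) := by rw [one_mul]; exact hexp
      _ ≤ ((∏ p ∈ B, (1 - x p)) * Real.exp (2 * σ)) * Real.exp (2 * σ) :=
          mul_le_mul_of_nonneg_right hinv (Real.exp_pos _).le
      _ = (∏ p ∈ B, (1 - x p)) * Real.exp (4 * σ) := by
          rw [mul_assoc, ← Real.exp_add]; congr 2; ring
  have h7 := mul_le_mul_of_nonneg_left h6 hpos
  calc D (2 * b) B x ≤ D (2 * b + 1) B x + (1 / 2) ^ (2 * b + 1) * ∏ p ∈ B, (1 + 2 * x p) := by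
        linarith
    _ ≤ (∏ p ∈ B, (1 - x p))
        + (1 / 2) ^ (2 * b + 1) * ((∏ p ∈ B, (1 - x p)) * Real.exp (4 * σ)) := by linarith
    _ = _ := by ring

end Pool.Agent.H70.SP
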