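import Mathlib

/-!
Counting integers in an interval with prescribed residue sets modulo several primes.
-/

set_option autoImplicit false

namespace Pool.Agent.H70.SP

open Finset

theorem count_ap (N m r : ℕ) (hm : 0 < m) :
    |(((Icc 1 N).filter (fun n => n ≡ r [MOD m])).card : ℝ) - N / m| ≤ 1 := by
  have h1 := Nat.Ioc_filter_modEq_card 0 N hm r
  have hset : (Ioc 0 N).filter (fun n => n ≡ r [MOD m]) = (Icc 1 N).filter
      (fun n => n ≡ r [MOD m]) := by
    ext n; simp only [mem_filter, mem_Ioc, mem_Icc]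
    constructor <;> rintro ⟨⟨a, b⟩, c⟩ <;> exact ⟨⟨by omega, b⟩, c⟩
  rw [hset] at h1
  set A : ℚ := ((N : ℚ) - r) / m with hA
  set B : ℚ := (((0 : ℕ) : ℚ) - r) / m with hB
  have hmQ : (0 : ℚ) < m := by exact_mod_cast hm
  have hAB : A - B = N / m := by rw [hA, hB]; push_cast; ring
  have hAB0 : 0 ≤ A - B := by rw [hAB]; positivity
  have e1 := Int.floor_le A
  have e2 := Int.lt_floor_add_one A
  have e3 := Int.floor_le B
  have e4 := Int.lt_floor_add_one B
  set c : ℤ := max (⌊A⌋ - ⌊B⌋) 0 with hc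
  have hge : ⌊B⌋ ≤ ⌊A⌋ := Int.floor_le_floor (by linarith)
  have hc2 : c = ⌊A⌋ - ⌊B⌋ := by rw [hc]; exact max_eq_left (by omega)
  have h2 : |(c : ℚ) - N / m| ≤ 1 := by
    rw [hc2, ← hAB, abs_le]; push_cast
    constructor <;> linarith
  have h3 : ((((Icc 1 N).filter (fun n => n ≡ r [MOD m])).card : ℕ) : ℚ) = (c : ℚ) := by
    rw [← h1]; simp
  rw [← h3] at h2
  have h4 : ((|((((Icc 1 N).filter (fun n => n ≡ r [MOD m])).card : ℕ) : ℚ) - N / m| : ℚ) : ℝ)
      ≤ ((1 : ℚ) : ℝ) := by exact_mod_cast h2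
  push_cast at h4
  exact h4

theorem count_sets (N : ℕ) (R : ℕ → Finset ℕ) (T : Finset ℕ)
    (hT : ∀ p ∈ T, p.Prime ∧ R p ⊆ range p) :
    ∀ m r : ℕ, 0 < m → (∀ p ∈ T, Nat.Coprime m p) →
      |(((Icc 1 N).filter (fun n => n ≡ r [MOD m] ∧ ∀ p ∈ T, n % p ∈ R p)).card : ℝ)
        - N / m * ∏ p ∈ T, ((R p).card / p : ℝ)| ≤ ∏ p ∈ T, ((R p).card : ℝ) := by
  classical
  induction T using Finset.induction_on with
  | empty =>
    intro m r hm _
    simpa using count_ap N m r hm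
  | insert p T hp ih =>
    intro m r hm hcop
    have hpp : p.Prime := (hT p (mem_insert_self _ _)).1
    have hRp : R p ⊆ range p := (hT p (mem_insert_self _ _)).2
    have hT' : ∀ q ∈ T, q.Prime ∧ R q ⊆ range q := fun q hq => hT q (mem_insert_of_mem hq)
    have hmp : Nat.Coprime m p := hcop p (mem_insert_self _ _)
    have ih' := ih hT'
    -- residue mod m * p
    let c : ℕ → ℕ := fun a => Nat.chineseRemainder hmp r a
    have hc : ∀ a n, (n ≡ c a [MOD m * p]) ↔ (n ≡ r [MOD m] ∧ n ≡ a [MOD p]) := by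
      intro a n
      have h1 := (Nat.chineseRemainder hmp r a).2
      rw [← Nat.modEq_and_modEq_iff_modEq_mul hmp]
      constructor
      · rintro ⟨h2, h3⟩; exact ⟨h2.trans h1.1, h3.trans h1.2⟩
      · rintro ⟨h2, h3⟩; exact ⟨h2.trans h1.1.symm, h3.trans h1.2.symm⟩
    have hcard : (((Icc 1 N).filter
        (fun n => n ≡ r [MOD m] ∧ ∀ q ∈ insert p T, n % q ∈ R q)).card : ℝ)
        = ∑ a ∈ R p, (((Icc 1 N).filter
          (fun n => n ≡ c a [MOD m * p] ∧ ∀ q ∈ T, n % q ∈ R q)).card : ℝ) := by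
      have h1 : ((Icc 1 N).filter (fun n => n ≡ r [MOD m] ∧ ∀ q ∈ insert p T, n % q ∈ R q)).card
          = ∑ a ∈ R p, (((Icc 1 N).filter
          (fun n => n ≡ r [MOD m] ∧ ∀ q ∈ insert p T, n % q ∈ R q)).filter
            (fun n => n % p = a)).card :=
        card_eq_sum_card_fiberwise (fun n hn => by
          simp only [coe_filter, Set.mem_ofPred_eq] at hn
          exact hn.2.2 p (mem_insert_self _ _))
      rw [h1]
      push_cast
      refine sum_congr rfl (fun a ha => ?_)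
      congr 2
      ext n
      simp only [mem_filter, mem_insert, forall_eq_or_imp, hc]
      constructor
      · rintro ⟨⟨h2, h3, h4, h5⟩, h6⟩
        refine ⟨h2, ⟨h3, ?_⟩, h5⟩
        rw [← h6]; exact (Nat.mod_modEq n p).symm
      · rintro ⟨h2, ⟨h3, h4⟩, h5⟩
        have h6 : n % p = a := by
          have h7 : n % p = a % p := h4
          rw [h7, Nat.mod_eq_of_lt (mem_range.1 (hRp ha))]
        exact ⟨⟨h2, h3, by rw [h6]; exact ha, h5⟩, h6⟩
    rw [hcard, prod_insert hp, prod_insert hp]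
    have hmain : (N : ℝ) / m * (((R p).card / p : ℝ) * ∏ q ∈ T, ((R q).card / q : ℝ))
        = ∑ a ∈ R p, ((N : ℝ) / ((m * p : ℕ) : ℝ) * ∏ q ∈ T, ((R q).card / q : ℝ)) := by
      rw [sum_const, nsmul_eq_mul, Nat.cast_mul]
      have hm0 : (m : ℝ) ≠ 0 := by exact_mod_cast hm.ne'
      have hp0 : (p : ℝ) ≠ 0 := by exact_mod_cast hpp.ne_zero
      generalize ∏ q ∈ T, ((R q).card / q : ℝ) = G
      generalize ((R p).card : ℝ) = a
      generalize (m : ℝ) = m' at hm0
      generalize (p : ℝ) = p' at hp0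
      generalize (N : ℝ) = N'
      field_simp
    rw [hmain, ← sum_sub_distrib]
    refine (abs_sum_le_sum_abs _ _).trans ?_
    refine (sum_le_card_nsmul _ _ (∏ q ∈ T, ((R q).card : ℝ)) (fun a _ => ?_)).trans
      (by rw [nsmul_eq_mul])
    refine ih' (m * p) (c a) (Nat.mul_pos hm hpp.pos) (fun q hq => ?_)
    refine Nat.Coprime.mul_left (hcop q (mem_insert_of_mem hq)) ?_
    exact (Nat.coprime_primes hpp (hT' q hq).1).2 (by rintro rfl; exact hp hq)

/-- The case without a congruence condition. -/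
theorem count_sets' (N : ℕ) (R : ℕ → Finset ℕ) (T : Finset ℕ)
    (hT : ∀ p ∈ T, p.Prime ∧ R p ⊆ range p) :
    |(((Icc 1 N).filter (fun n => ∀ p ∈ T, n % p ∈ R p)).card : ℝ)
        - N * ∏ p ∈ T, ((R p).card / p : ℝ)| ≤ ∏ p ∈ T, ((R p).card : ℝ) := by
  have h := count_sets N R T hT 1 0 one_pos (fun p _ => Nat.coprime_one_left p)
  simpa [Nat.modEq_one] using h

end Pool.Agent.H70.SP
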