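import Mathlib
import Pool.Agent.H70.SP.Bonf
import Pool.Agent.H70.SP.Crt

/-!
Brun-Hooley upper bound sieve: product of truncated inclusion-exclusions over blocks of primes.
-/

set_option autoImplicit false

namespace Pool.Agent.H70.SP

open Finset

/-- indicator that `n` falls in the residue set of `p` -/
noncomputable def ind (R : ℕ → Finset ℕ) (n p : ℕ) : ℝ := if n % p ∈ R p then 1 else 0

/-- density of the residue set -/
noncomputable def dens (R : ℕ → Finset ℕ) (p : ℕ) : ℝ := ((R p).card : ℝ) / p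

/-- error weight of a block -/
noncomputable def Er (R : ℕ → Finset ℕ) (m : ℕ) (B : Finset ℕ) : ℝ :=
  ∑ T ∈ B.powerset, if T.card ≤ m then ∏ p ∈ T, ((R p).card : ℝ) else 0

theorem ind_nonneg (R : ℕ → Finset ℕ) (n p : ℕ) : 0 ≤ ind R n p := by
  unfold ind; split_ifs <;> norm_num

theorem ind_le_one (R : ℕ → Finset ℕ) (n p : ℕ) : ind R n p ≤ 1 := by
  unfold ind; split_ifs <;> norm_num

theorem prod_ind (R : ℕ → Finset ℕ) (n : ℕ) (T : Finset ℕ) :
    ∏ p ∈ T, ind R n p = if ∀ p ∈ T, n % p ∈ R p then 1 else 0 := by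
  classical
  by_cases h : ∀ p ∈ T, n % p ∈ R p
  · rw [if_pos h]
    exact prod_eq_one (fun p hp => by unfold ind; rw [if_pos (h p hp)])
  · rw [if_neg h]
    push Not at h
    obtain ⟨p, hp, hn⟩ := h
    exact prod_eq_zero hp (by unfold ind; rw [if_neg hn])

theorem block_sum (N : ℕ) (R : ℕ → Finset ℕ) (B : ℕ → Finset ℕ) (b : ℕ → ℕ) (r : ℕ)
    (hB : ∀ i < r, ∀ p ∈ B i, p.Prime ∧ R p ⊆ range p)
    (hdis : ∀ i < r, ∀ j < r, i ≠ j → Disjoint (B i) (B j)) :
    ∀ T : Finset ℕ, (∀ p ∈ T, p.Prime ∧ R p ⊆ range p) → (∀ i < r, Disjoint T (B i)) →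
      |∑ n ∈ Icc 1 N, (∏ p ∈ T, ind R n p) * ∏ i ∈ range r, D (2 * b i) (B i) (ind R n)
        - N * (∏ p ∈ T, dens R p) * ∏ i ∈ range r, D (2 * b i) (B i) (dens R)|
      ≤ (∏ p ∈ T, ((R p).card : ℝ)) * ∏ i ∈ range r, Er R (2 * b i) (B i) := by
  classical
  induction r with
  | zero =>
    intro T hT _
    have h := count_sets' N R T hT
    simp only [range_zero, prod_empty, mul_one]
    have h1 : ∑ n ∈ Icc 1 N, ∏ p ∈ T, ind R n p
        = (((Icc 1 N).filter (fun n => ∀ p ∈ T, n % p ∈ R p)).card : ℝ) := by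
      rw [card_filter]
      push_cast
      exact sum_congr rfl (fun n _ => prod_ind R n T)
    rw [h1]
    exact h
  | succ r ih =>
    intro T hT hTd
    have ih' := ih (fun i hi => hB i (by omega)) (fun i hi j hj => hdis i (by omega) j (by omega))
    -- expand the last block
    have hexp : ∀ x : ℕ → ℝ, ∀ A : ℝ, (∏ p ∈ T, x p) * (A * D (2 * b r) (B r) x)
        = ∑ U ∈ (B r).powerset, (if U.card ≤ 2 * b r then (-1 : ℝ) ^ U.card
          * ((∏ p ∈ T ∪ U, x p) * A) else 0) := by
      intro x A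
      unfold D
      rw [mul_sum, mul_sum]
      refine sum_congr rfl (fun U hU => ?_)
      have hd : Disjoint T U := (hTd r (by omega)).mono_right (mem_powerset.1 hU)
      rw [prod_union hd]
      split_ifs <;> ring
    have h1 : ∑ n ∈ Icc 1 N, (∏ p ∈ T, ind R n p)
          * ∏ i ∈ range (r + 1), D (2 * b i) (B i) (ind R n)
        = ∑ U ∈ (B r).powerset, (if U.card ≤ 2 * b r then (-1 : ℝ) ^ U.card
          * (∑ n ∈ Icc 1 N, (∏ p ∈ T ∪ U, ind R n p)
            * ∏ i ∈ range r, D (2 * b i) (B i) (ind R n)) else 0) := by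
      have h2 : ∀ n ∈ Icc 1 N, (∏ p ∈ T, ind R n p)
          * ∏ i ∈ range (r + 1), D (2 * b i) (B i) (ind R n)
          = ∑ U ∈ (B r).powerset, (if U.card ≤ 2 * b r then (-1 : ℝ) ^ U.card
            * ((∏ p ∈ T ∪ U, ind R n p)
              * ∏ i ∈ range r, D (2 * b i) (B i) (ind R n)) else 0) := by
        intro n _
        rw [prod_range_succ]
        exact hexp (ind R n) _
      rw [sum_congr rfl h2, sum_comm]
      refine sum_congr rfl (fun U _ => ?_)
      split_ifs
      · rw [mul_sum]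
      · simp
    have h3 : (N : ℝ) * (∏ p ∈ T, dens R p) * ∏ i ∈ range (r + 1), D (2 * b i) (B i) (dens R)
        = ∑ U ∈ (B r).powerset, (if U.card ≤ 2 * b r then (-1 : ℝ) ^ U.card
          * (N * (∏ p ∈ T ∪ U, dens R p)
            * ∏ i ∈ range r, D (2 * b i) (B i) (dens R)) else 0) := by
      rw [prod_range_succ]
      have h4 := hexp (dens R) ((N : ℝ) * ∏ i ∈ range r, D (2 * b i) (B i) (dens R))
      calc _ = (∏ p ∈ T, dens R p) * ((N : ℝ) * (∏ i ∈ range r, D (2 * b i) (B i) (dens R))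
            * D (2 * b r) (B r) (dens R)) := by ring
        _ = _ := by
          rw [h4]
          refine sum_congr rfl (fun U _ => ?_)
          split_ifs
          · ring
          · rfl
    rw [h1, h3, ← sum_sub_distrib]
    refine (abs_sum_le_sum_abs _ _).trans ?_
    have h5 : (∏ p ∈ T, ((R p).card : ℝ)) * ∏ i ∈ range (r + 1), Er R (2 * b i) (B i)
        = ∑ U ∈ (B r).powerset, (if U.card ≤ 2 * b r then
          (∏ p ∈ T ∪ U, ((R p).card : ℝ)) * ∏ i ∈ range r, Er R (2 * b i) (B i) else 0) := by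
      rw [prod_range_succ]
      conv_lhs => rw [show Er R (2 * b r) (B r) = ∑ U ∈ (B r).powerset,
        if U.card ≤ 2 * b r then ∏ p ∈ U, ((R p).card : ℝ) else 0 from rfl]
      rw [mul_sum, mul_sum]
      refine sum_congr rfl (fun U hU => ?_)
      have hd : Disjoint T U := (hTd r (by omega)).mono_right (mem_powerset.1 hU)
      rw [prod_union hd]
      split_ifs <;> ring
    rw [h5]
    refine sum_le_sum (fun U hU => ?_)
    have hUB := mem_powerset.1 hU
    split_ifs with hc
    · rw [← mul_sub, abs_mul, abs_pow, abs_neg, abs_one, one_pow, one_mul]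
      refine ih' (T ∪ U) ?_ ?_
      · intro p hp
        rcases mem_union.1 hp with h | h
        · exact hT p h
        · exact hB r (by omega) p (hUB h)
      · intro i hi
        rw [disjoint_union_left]
        exact ⟨hTd i (by omega), (hdis r (by omega) i (by omega) (by omega)).mono_left hUB⟩
    · simp

/-- Upper bound sieve. -/
theorem sieve_upper (N : ℕ) (R : ℕ → Finset ℕ) (B : ℕ → Finset ℕ) (b : ℕ → ℕ) (r : ℕ)
    (hB : ∀ i < r, ∀ p ∈ B i, p.Prime ∧ R p ⊆ range p)
    (hdis : ∀ i < r, ∀ j < r, i ≠ j → Disjoint (B i) (B j)) :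
    (((Icc 1 N).filter (fun n => ∀ i < r, ∀ p ∈ B i, n % p ∉ R p)).card : ℝ)
      ≤ N * ∏ i ∈ range r, D (2 * b i) (B i) (dens R) + ∏ i ∈ range r, Er R (2 * b i) (B i) := by
  classical
  have h := block_sum N R B b r hB hdis ∅ (by simp) (by simp)
  simp only [prod_empty, one_mul, mul_one] at h
  have h1 := (abs_le.1 h).2
  have h2 : (((Icc 1 N).filter (fun n => ∀ i < r, ∀ p ∈ B i, n % p ∉ R p)).card : ℝ)
      ≤ ∑ n ∈ Icc 1 N, ∏ i ∈ range r, D (2 * b i) (B i) (ind R n) := by
    rw [card_filter]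
    push_cast
    refine sum_le_sum (fun n _ => ?_)
    have h3 : ∀ i ∈ range r, ∏ p ∈ B i, (1 - ind R n p) ≤ D (2 * b i) (B i) (ind R n) := fun i _ =>
      prod_le_D _ _ _ (fun p _ => ind_nonneg R n p) (fun p _ => ind_le_one R n p)
    have h4 : ∀ i ∈ range r, 0 ≤ ∏ p ∈ B i, (1 - ind R n p) := fun i _ =>
      prod_nonneg (fun p _ => by have := ind_le_one R n p; linarith)
    split_ifs with hc
    · calc (1 : ℝ) = ∏ i ∈ range r, ∏ p ∈ B i, (1 - ind R n p) := by
            symm
            refine prod_eq_one (fun i hi => prod_eq_one (fun p hp => ?_))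
            unfold ind
            rw [if_neg (hc i (mem_range.1 hi) p hp)]
            ring
        _ ≤ _ := prod_le_prod h4 h3
    · exact prod_nonneg (fun i hi => (h4 i hi).trans (h3 i hi))
  linarith

end Pool.Agent.H70.SP
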