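import Mathlib
import Pool.Agent.H70.SP.Block
import Pool.Agent.H70.LP.Mert

/-!
The doubly dyadic blocks of primes, and bounds for the main and error products of the sieve.
-/

set_option autoImplicit false

namespace Pool.Agent.H70.SP

open Finset Pool.Agent.H70.LP

/-- the block of primes in `(2^2^i, 2^2^(i+1)]`, for `i ≥ 2` -/
def Bl (i : ℕ) : Finset ℕ :=
  if i < 2 then ∅ else (Ioc (2 ^ 2 ^ i) (2 ^ 2 ^ (i + 1))).filter Nat.Prime

theorem mem_Bl {i p : ℕ} (h : p ∈ Bl i) :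
    2 ≤ i ∧ 2 ^ 2 ^ i < p ∧ p ≤ 2 ^ 2 ^ (i + 1) ∧ p.Prime ∧ 16 < p := by
  unfold Bl at h
  split_ifs at h with hi
  · simp at h
  · simp only [mem_filter, mem_Ioc] at h
    have h2 : 2 ≤ i := by omega
    have h3 : 2 ^ 2 ^ 2 ≤ 2 ^ 2 ^ i :=
      Nat.pow_le_pow_right (by norm_num) (Nat.pow_le_pow_right (by norm_num) h2)
    have h4 : 2 ^ 2 ^ 2 = 16 := by norm_num
    exact ⟨h2, h.1.1, h.1.2, h.2, by omega⟩

theorem Bl_disjoint {i j : ℕ} (h : i ≠ j) : Disjoint (Bl i) (Bl j) := by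
  rw [disjoint_left]
  intro p hp hq
  have h1 := mem_Bl hp
  have h2 := mem_Bl hq
  rcases lt_or_gt_of_ne h with h3 | h3
  · have : 2 ^ 2 ^ (i + 1) ≤ 2 ^ 2 ^ j :=
      Nat.pow_le_pow_right (by norm_num) (Nat.pow_le_pow_right (by norm_num) h3)
    omega
  · have : 2 ^ 2 ^ (j + 1) ≤ 2 ^ 2 ^ i :=
      Nat.pow_le_pow_right (by norm_num) (Nat.pow_le_pow_right (by norm_num) h3)
    omega

theorem fib_sum_le (S : Finset ℕ) (j : ℕ) (hS : ∀ p ∈ S, p.Prime ∧ Nat.log 2 p = j) :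
    ∑ p ∈ S, 1 / (p : ℝ) ≤ 18 / ((j : ℝ) + 1) := by
  have hlog2 : 0 < Real.log 2 := Real.log_pos (by norm_num)
  have hcard : (S.card : ℝ) ≤ 6 * (2 : ℝ) ^ (j + 1) / (((j : ℝ) + 1) * Real.log 2) := by
    have hle : S.card ≤ pc (2 ^ (j + 1)) := by
      refine card_le_card (fun p hp => ?_)
      obtain ⟨hp1, hp2⟩ := hS p hp
      rw [mem_filter]
      refine ⟨mem_Icc.2 ⟨hp1.one_lt.le, ?_⟩, hp1⟩
      have := Nat.lt_pow_succ_log_self (b := 2) (by norm_num) p
      rw [hp2] at this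
      exact this.le
    have h2 := pc_le (2 ^ (j + 1)) (by
      calc 2 = 2 ^ 1 := by norm_num
        _ ≤ 2 ^ (j + 1) := Nat.pow_le_pow_right (by norm_num) (by omega))
    have h3 : ((2 ^ (j + 1) : ℕ) : ℝ) = (2 : ℝ) ^ (j + 1) := by push_cast; ring
    rw [h3, Real.log_pow] at h2
    push_cast at h2
    exact le_trans (by exact_mod_cast hle) h2
  have hval : ∀ p ∈ S, 1 / (p : ℝ) ≤ 1 / (2 : ℝ) ^ j := by
    intro p hp
    obtain ⟨hp1, hp2⟩ := hS p hp
    have h2 : 2 ^ j ≤ p := by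
      have := Nat.pow_log_le_self 2 hp1.ne_zero
      rwa [hp2] at this
    exact one_div_le_one_div_of_le (by positivity) (by exact_mod_cast h2)
  have hsum := sum_le_card_nsmul _ _ _ hval
  rw [nsmul_eq_mul] at hsum
  refine hsum.trans ((mul_le_mul_of_nonneg_right hcard (by positivity)).trans ?_)
  have heq : 6 * (2 : ℝ) ^ (j + 1) / (((j : ℝ) + 1) * Real.log 2) * (1 / 2 ^ j)
      = (12 / Real.log 2) / ((j : ℝ) + 1) := by
    field_simp
    ring
  rw [heq]
  refine div_le_div_of_nonneg_right ?_ (by positivity)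
  rw [div_le_iff₀ hlog2]
  have := Real.log_two_gt_d9
  linarith

theorem Bl_sum_le (i : ℕ) : ∑ p ∈ Bl i, 1 / (p : ℝ) ≤ 18 := by
  classical
  have hfib : ∀ p ∈ Bl i, Nat.log 2 p ∈ Ico (2 ^ i) (2 ^ (i + 1)) := by
    intro p hp
    obtain ⟨h1, h2, h3, h4, h5⟩ := mem_Bl hp
    rw [mem_Ico]
    refine ⟨Nat.le_log_of_pow_le (by norm_num) h2.le, ?_⟩
    refine Nat.log_lt_of_lt_pow h4.ne_zero (lt_of_le_of_ne h3 ?_)
    intro heq
    rw [heq] at h4
    have h6 : 2 ^ (i + 1) = 1 := (Nat.Prime.eq_one_of_pow h4)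
    have h7 : 2 ^ 1 ≤ 2 ^ (i + 1) := Nat.pow_le_pow_right (by norm_num) (by omega)
    omega
  rw [← sum_fiberwise_of_maps_to hfib]
  have hterm : ∀ j ∈ Ico (2 ^ i) (2 ^ (i + 1)),
      ∑ p ∈ (Bl i).filter (fun p => Nat.log 2 p = j), 1 / (p : ℝ) ≤ 18 / (2 : ℝ) ^ i := by
    intro j hj
    refine (fib_sum_le _ j (fun p hp => ?_)).trans ?_
    · rw [mem_filter] at hp
      exact ⟨(mem_Bl hp.1).2.2.2.1, hp.2⟩
    · refine div_le_div_of_nonneg_left (by norm_num) (by positivity) ?_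
      have h1 := (mem_Ico.1 hj).1
      have h2 : ((2 : ℝ) ^ i) ≤ (j : ℝ) := by exact_mod_cast h1
      linarith
  refine (sum_le_card_nsmul _ _ _ hterm).trans ?_
  rw [Nat.card_Ico, nsmul_eq_mul]
  have h1 : 2 ^ (i + 1) - 2 ^ i = 2 ^ i := by rw [pow_succ]; omega
  rw [h1]
  push_cast
  rw [mul_div_assoc', mul_comm, mul_div_assoc, div_self (by positivity), mul_one]

/-- Bound for the product of the truncated sums. -/
theorem main_prod_le (R : ℕ → Finset ℕ) (hR : ∀ p, (R p).card ≤ 8) (r : ℕ) :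
    ∏ i ∈ range r, D (2 * (r - i)) (Bl i) (dens R)
      ≤ Real.exp (Real.exp 576) * ∏ i ∈ range r, ∏ p ∈ Bl i, (1 - dens R p) := by
  have hd0 : ∀ p, 0 ≤ dens R p := fun p => by unfold dens; positivity
  have hd1 : ∀ i, ∀ p ∈ Bl i, dens R p ≤ 1 / 2 := by
    intro i p hp
    obtain ⟨h1, h2, h3, h4, h5⟩ := mem_Bl hp
    unfold dens
    have h6 : (16 : ℝ) < p := by exact_mod_cast h5
    have h7 : ((R p).card : ℝ) ≤ 8 := by exact_mod_cast hR p
    rw [div_le_iff₀ (by linarith)]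
    linarith
  have hsum : ∀ i, ∑ p ∈ Bl i, dens R p ≤ 144 := by
    intro i
    have h1 : ∑ p ∈ Bl i, dens R p ≤ ∑ p ∈ Bl i, 8 * (1 / (p : ℝ)) := by
      refine sum_le_sum (fun p _ => ?_)
      unfold dens
      have h7 : ((R p).card : ℝ) ≤ 8 := by exact_mod_cast hR p
      rw [mul_one_div]
      exact div_le_div_of_nonneg_right h7 (Nat.cast_nonneg p)
    rw [← mul_sum] at h1
    have := Bl_sum_le i
    linarith
  have h1 : ∀ i ∈ range r, D (2 * (r - i)) (Bl i) (dens R)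
      ≤ (∏ p ∈ Bl i, (1 - dens R p))
        * (1 + (1 / 2) ^ (2 * (r - i) + 1) * Real.exp (4 * 144)) := fun i _ =>
    D_even_le (r - i) (Bl i) (dens R) (fun p _ => hd0 p) (hd1 i) 144 (hsum i)
  have h2 : ∀ i ∈ range r, 0 ≤ D (2 * (r - i)) (Bl i) (dens R) := fun i _ =>
    (prod_nonneg (fun p hp => by have := hd1 i p hp; linarith)).trans
      (prod_le_D (r - i) (Bl i) (dens R) (fun p _ => hd0 p)
        (fun p hp => (hd1 i p hp).trans (by norm_num)))
  refine (prod_le_prod h2 h1).trans ?_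
  rw [prod_mul_distrib, mul_comm]
  have h3 : 0 ≤ ∏ i ∈ range r, ∏ p ∈ Bl i, (1 - dens R p) :=
    prod_nonneg (fun i _ => prod_nonneg (fun p hp => by have := hd1 i p hp; linarith))
  refine mul_le_mul_of_nonneg_right ?_ h3
  have h4 : ∏ i ∈ range r, (1 + (1 / 2 : ℝ) ^ (2 * (r - i) + 1) * Real.exp (4 * 144))
      ≤ ∏ i ∈ range r, Real.exp ((1 / 2 : ℝ) ^ (2 * (r - i) + 1) * Real.exp (4 * 144)) := by
    refine prod_le_prod (fun i _ => by positivity) (fun i _ => ?_)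
    have := Real.add_one_le_exp ((1 / 2 : ℝ) ^ (2 * (r - i) + 1) * Real.exp (4 * 144))
    linarith
  refine h4.trans ?_
  rw [← Real.exp_sum, ← sum_mul, Real.exp_le_exp]
  have h5 : ∑ i ∈ range r, (1 / 2 : ℝ) ^ (2 * (r - i) + 1) ≤ 1 := by
    have h6 : ∑ i ∈ range r, (1 / 2 : ℝ) ^ (2 * (r - i) + 1)
        ≤ ∑ i ∈ range r, (1 / 2 : ℝ) ^ (r - i) := by
      refine sum_le_sum (fun i _ => ?_)
      exact pow_le_pow_of_le_one (by norm_num) (by norm_num) (by omega)
    have h7 : ∑ i ∈ range r, (1 / 2 : ℝ) ^ (r - i) = ∑ i ∈ range r, (1 / 2 : ℝ) ^ (i + 1) := by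
      rw [← sum_range_reflect]
      refine sum_congr rfl (fun i hi => ?_)
      rw [mem_range] at hi
      congr 1
      omega
    have h8 : ∑ i ∈ range r, (1 / 2 : ℝ) ^ (i + 1) ≤ 1 := by
      have h9 : ∑ i ∈ range r, (1 / 2 : ℝ) ^ (i + 1) = 1 - (1 / 2) ^ r := by
        clear h1 h2 h3 h4 h6 h7
        induction r with
        | zero => simp
        | succ r ih => rw [sum_range_succ, ih]; ring
      rw [h9]
      have : (0 : ℝ) ≤ (1 / 2) ^ r := by positivity
      linarith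
    linarith
  have h6 : Real.exp (4 * 144) = Real.exp 576 := by norm_num
  rw [h6]
  have := Real.exp_pos 576
  nlinarith

theorem Er_le (R : ℕ → Finset ℕ) (m : ℕ) (B : Finset ℕ) (X : ℝ) (hX : 1 ≤ X)
    (hB : ∑ p ∈ B, ((R p).card : ℝ) ≤ X) : Er R m B ≤ X ^ m * 3 := by
  classical
  have h1 : Er R m B ≤ ∑ T ∈ B.powerset, X ^ m * ∏ p ∈ T, (((R p).card : ℝ) / X) := by
    unfold Er
    refine sum_le_sum (fun T _ => ?_)
    have hX0 : 0 < X := by linarith
    have h2 : 0 ≤ X ^ m * ∏ p ∈ T, (((R p).card : ℝ) / X) := by positivity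
    split_ifs with hc
    · rw [prod_div_distrib, prod_const]
      rw [mul_div_assoc', le_div_iff₀ (by positivity), mul_comm]
      refine mul_le_mul_of_nonneg_right (pow_le_pow_right₀ hX hc) (by positivity)
    · exact h2
  rw [← mul_sum, ← prod_one_add] at h1
  refine h1.trans (mul_le_mul_of_nonneg_left ?_ (by positivity))
  calc ∏ p ∈ B, (1 + ((R p).card : ℝ) / X) ≤ ∏ p ∈ B, Real.exp (((R p).card : ℝ) / X) := by
        refine prod_le_prod (fun p _ => by positivity) (fun p _ => ?_)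
        have := Real.add_one_le_exp (((R p).card : ℝ) / X)
        linarith
    _ = Real.exp ((∑ p ∈ B, ((R p).card : ℝ)) / X) := by rw [← Real.exp_sum, sum_div]
    _ ≤ Real.exp 1 := by
        rw [Real.exp_le_exp, div_le_one (by linarith)]; exact hB
    _ ≤ 3 := by have := Real.exp_one_lt_d9; linarith

theorem sum_two_pow (r : ℕ) : ∑ i ∈ range r, 2 ^ (i + 2) * (r - i) ≤ 8 * 2 ^ r := by
  induction r with
  | zero => simp
  | succ r ih =>
    have h1 : ∑ i ∈ range (r + 1), 2 ^ (i + 2) * (r + 1 - i)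
        = ∑ i ∈ range (r + 1), (2 ^ (i + 2) * (r - i) + 2 ^ (i + 2)) := by
      refine sum_congr rfl (fun i hi => ?_)
      rw [mem_range] at hi
      have : r + 1 - i = (r - i) + 1 := by omega
      rw [this]; ring
    rw [h1, sum_add_distrib, sum_range_succ]
    simp only [Nat.sub_self, mul_zero, add_zero]
    have h2 : ∑ i ∈ range (r + 1), 2 ^ (i + 2) = 4 * (2 ^ (r + 1) - 1) := by
      have h3 : ∀ n : ℕ, ∑ i ∈ range n, 2 ^ (i + 2) = 4 * (2 ^ n - 1) := by
        intro n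
        induction n with
        | zero => simp
        | succ n ihn =>
          rw [sum_range_succ, ihn, pow_succ, pow_add]
          have : 1 ≤ 2 ^ n := Nat.one_le_two_pow
          omega
      exact h3 _
    rw [h2, pow_succ]
    have : 1 ≤ 2 ^ r := Nat.one_le_two_pow
    omega

theorem exp_ineq (r : ℕ) : 6 * r ^ 2 + 2 * r ≤ 2 * 2 ^ r + 110 := by
  rcases lt_or_ge r 8 with h | h
  · interval_cases r <;> norm_num
  · induction r, h using Nat.le_induction with
    | base => norm_num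
    | succ n hn ih =>
      have : 12 * n + 8 ≤ 2 * 2 ^ n := by
        clear ih
        induction n, hn using Nat.le_induction with
        | base => norm_num
        | succ n hn ih => rw [pow_succ]; omega
      rw [pow_succ 2 n]
      nlinarith

/-- Bound for the error product. -/
theorem err_prod_le (R : ℕ → Finset ℕ) (hR : ∀ p, (R p).card ≤ 8) (r : ℕ) :
    ∏ i ∈ range r, Er R (2 * (r - i)) (Bl i) ≤ 2 ^ 110 * (2 : ℝ) ^ (10 * 2 ^ r) := by
  have h1 : ∀ i ∈ range r, Er R (2 * (r - i)) (Bl i)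
      ≤ (2 : ℝ) ^ (2 + 6 * r + 2 ^ (i + 2) * (r - i)) := by
    intro i hi
    rw [mem_range] at hi
    set X : ℝ := 8 * 2 ^ 2 ^ (i + 1) with hX
    have hX1 : 1 ≤ X := by
      have : (1 : ℝ) ≤ 2 ^ 2 ^ (i + 1) := one_le_pow₀ (by norm_num)
      rw [hX]; linarith
    have hB : ∑ p ∈ Bl i, ((R p).card : ℝ) ≤ X := by
      have h2 : ∑ p ∈ Bl i, ((R p).card : ℝ) ≤ (Bl i).card • (8 : ℝ) :=
        sum_le_card_nsmul _ _ _ (fun p _ => by exact_mod_cast hR p)
      have h3 : (Bl i).card ≤ 2 ^ 2 ^ (i + 1) := by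
        have : Bl i ⊆ Icc 1 (2 ^ 2 ^ (i + 1)) := by
          intro p hp
          obtain ⟨-, -, h3, h4, -⟩ := mem_Bl hp
          exact mem_Icc.2 ⟨h4.one_lt.le, h3⟩
        have := card_le_card this
        simpa using this
      have h4 : ((Bl i).card : ℝ) ≤ 2 ^ 2 ^ (i + 1) := by exact_mod_cast h3
      rw [nsmul_eq_mul] at h2
      rw [hX]; linarith
    refine (Er_le R (2 * (r - i)) (Bl i) X hX1 hB).trans ?_
    have h5 : X = (2 : ℝ) ^ (3 + 2 ^ (i + 1)) := by
      rw [hX, pow_add (2 : ℝ) 3 (2 ^ (i + 1))]; norm_num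
    rw [h5, ← pow_mul]
    calc (2 : ℝ) ^ ((3 + 2 ^ (i + 1)) * (2 * (r - i))) * 3
        ≤ (2 : ℝ) ^ ((3 + 2 ^ (i + 1)) * (2 * (r - i))) * 2 ^ 2 :=
          mul_le_mul_of_nonneg_left (by norm_num) (by positivity)
      _ = (2 : ℝ) ^ ((3 + 2 ^ (i + 1)) * (2 * (r - i)) + 2) := by rw [← pow_add]
      _ ≤ _ := by
          refine pow_le_pow_right₀ (by norm_num) ?_
          have h6 : (3 + 2 ^ (i + 1)) * (2 * (r - i)) = 6 * (r - i) + 2 ^ (i + 2) * (r - i) := by
            rw [pow_succ 2 (i + 1)]; ring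
          rw [h6]
          omega
  have h0 : ∀ i ∈ range r, 0 ≤ Er R (2 * (r - i)) (Bl i) := by
    intro i _
    unfold Er
    refine sum_nonneg (fun T _ => ?_)
    split_ifs
    · exact prod_nonneg (fun p _ => Nat.cast_nonneg _)
    · exact le_rfl
  refine (prod_le_prod h0 h1).trans ?_
  rw [prod_pow_eq_pow_sum, sum_add_distrib, sum_const, card_range, smul_eq_mul, ← pow_add]
  refine pow_le_pow_right₀ (by norm_num) ?_
  have h2 := sum_two_pow r
  have h3 := exp_ineq r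
  nlinarith

end Pool.Agent.H70.SP
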