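import Mathlib
import Pool.Agent.H70.SP.Dyad

/-!
Upper bound sieve of dimension `k ≤ 8` with uniform dependence on the bad primes.
-/

set_option autoImplicit false

namespace Pool.Agent.H70.SP

open Finset Pool.Agent.H70.LP

/-- union of the blocks -/
def U (r : ℕ) : Finset ℕ := (range r).biUnion Bl

theorem mem_U {r p : ℕ} (hp : p.Prime) (h16 : 16 < p) (hpr : p ≤ 2 ^ 2 ^ r) : p ∈ U r := by
  unfold U
  rw [mem_biUnion]
  set L := Nat.log 2 p with hL
  set i := Nat.log 2 L with hi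
  have hp0 : p ≠ 0 := hp.ne_zero
  have h1 : 2 ^ L ≤ p := Nat.pow_log_le_self 2 hp0
  have h2 : p < 2 ^ (L + 1) := Nat.lt_pow_succ_log_self (by norm_num) p
  have hL4 : 4 ≤ L := Nat.le_log_of_pow_le (by norm_num) (by norm_num; omega)
  have h3 : 2 ^ i ≤ L := Nat.pow_log_le_self 2 (by omega)
  have h4 : L < 2 ^ (i + 1) := Nat.lt_pow_succ_log_self (by norm_num) L
  have hi2 : 2 ≤ i := Nat.le_log_of_pow_le (by norm_num) (by norm_num; omega)
  have hnot : ∀ j, 1 ≤ j → p ≠ 2 ^ 2 ^ j := by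
    intro j hj heq
    rw [heq] at hp
    have h6 : 2 ^ j = 1 := Nat.Prime.eq_one_of_pow hp
    have h7 : 2 ^ 1 ≤ 2 ^ j := Nat.pow_le_pow_right (by norm_num) hj
    omega
  have h5 : 2 ^ 2 ^ i < p :=
    lt_of_le_of_ne ((Nat.pow_le_pow_right (by norm_num) h3).trans h1) (hnot i (by omega)).symm
  have h6 : p ≤ 2 ^ 2 ^ (i + 1) := h2.le.trans (Nat.pow_le_pow_right (by norm_num) h4)
  refine ⟨i, ?_, ?_⟩
  · rw [mem_range]
    by_contra hcon
    have h7 : 2 ^ 2 ^ r ≤ 2 ^ 2 ^ i :=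
      Nat.pow_le_pow_right (by norm_num) (Nat.pow_le_pow_right (by norm_num) (by omega))
    omega
  · unfold Bl
    rw [if_neg (by omega), mem_filter, mem_Ioc]
    exact ⟨⟨h5, h6⟩, hp⟩

theorem prod_U_le (r : ℕ) : ∏ p ∈ U r, (1 - 1 / (p : ℝ)) ≤ 64 / (2 ^ r * Real.log 2) := by
  classical
  set z := 2 ^ 2 ^ r with hz
  have hz1 : 1 ≤ z := Nat.one_le_two_pow
  have hlog2 : 0 < Real.log 2 := Real.log_pos (by norm_num)
  have hlogz : Real.log z = 2 ^ r * Real.log 2 := by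
    rw [hz]; push_cast; rw [Real.log_pow]; push_cast; ring
  have h1 := log_le_inv_prod z
  rw [prod_inv_distrib] at h1
  have hfac : ∀ p : ℕ, p.Prime → 1 / 2 ≤ 1 - 1 / (p : ℝ) ∧ 1 - 1 / (p : ℝ) ≤ 1 := by
    intro p hp
    have h2 : (2 : ℝ) ≤ p := by exact_mod_cast hp.two_le
    have h3 : 1 / (p : ℝ) ≤ 1 / 2 := one_div_le_one_div_of_le (by norm_num) h2
    have h4 : 0 ≤ 1 / (p : ℝ) := by positivity
    constructor <;> linarith
  set G := ∏ p ∈ (z + 1).primesBelow, (1 - 1 / (p : ℝ)) with hG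
  have hG0 : 0 < G := prod_pos (fun p hp => by
    have := (hfac p (Nat.prime_of_mem_primesBelow hp)).1; linarith)
  have h2 : Real.log z ≤ Real.log ((z : ℝ) + 1) :=
    Real.log_le_log (by exact_mod_cast hz1) (by linarith)
  have h3 : G ≤ 1 / Real.log z := by
    have hl0 : 0 < Real.log z := by rw [hlogz]; positivity
    rw [le_div_iff₀ hl0]
    have h4 : Real.log z ≤ G⁻¹ := h2.trans h1
    calc G * Real.log z ≤ G * G⁻¹ := mul_le_mul_of_nonneg_left h4 hG0.le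
      _ = 1 := mul_inv_cancel₀ hG0.ne'
  set sm : Finset ℕ := (range 17).filter Nat.Prime with hsm
  have hUprime : ∀ p ∈ U r, p.Prime ∧ 16 < p := by
    intro p hp
    unfold U at hp
    obtain ⟨i, -, hi⟩ := mem_biUnion.1 hp
    exact ⟨(mem_Bl hi).2.2.2.1, (mem_Bl hi).2.2.2.2⟩
  have hsub : (z + 1).primesBelow ⊆ U r ∪ sm := by
    intro p hp
    have hpp := Nat.prime_of_mem_primesBelow hp
    have hlt := Nat.lt_of_mem_primesBelow hp
    rw [mem_union]
    rcases lt_or_ge 16 p with h | h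
    · exact Or.inl (mem_U hpp h (by omega))
    · right
      rw [hsm, mem_filter, mem_range]
      exact ⟨by omega, hpp⟩
  have hdis : Disjoint (U r) sm := by
    rw [disjoint_left]
    intro p hp hq
    rw [hsm, mem_filter, mem_range] at hq
    have := (hUprime p hp).2
    omega
  have h5 : ∏ p ∈ U r ∪ sm, (1 - 1 / (p : ℝ)) ≤ G := by
    refine prod_le_prod_of_subset_of_le_one hsub (fun p hp => ?_) (fun p hp _ => ?_)
    · rcases mem_union.1 hp with h | h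
      · have := (hfac p (hUprime p h).1).1; linarith
      · have := (hfac p (mem_filter.1 h).2).1; linarith
    · rcases mem_union.1 hp with h | h
      · exact (hfac p (hUprime p h).1).2
      · exact (hfac p (mem_filter.1 h).2).2
  rw [prod_union hdis] at h5
  have h6 : (1 / 64 : ℝ) ≤ ∏ p ∈ sm, (1 - 1 / (p : ℝ)) := by
    have hcard : sm.card = 6 := by rw [hsm]; decide
    calc (1 / 64 : ℝ) = ∏ p ∈ sm, (1 / 2 : ℝ) := by rw [prod_const, hcard]; norm_num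
      _ ≤ _ := prod_le_prod (fun _ _ => by norm_num) (fun p hp => (hfac p (mem_filter.1 hp).2).1)
  have hU0 : 0 ≤ ∏ p ∈ U r, (1 - 1 / (p : ℝ)) :=
    prod_nonneg (fun p hp => by have := (hfac p (hUprime p hp).1).1; linarith)
  have h7 : (∏ p ∈ U r, (1 - 1 / (p : ℝ))) * (1 / 64) ≤ 1 / Real.log z :=
    (mul_le_mul_of_nonneg_left h6 hU0).trans (h5.trans h3)
  rw [hlogz] at h7
  have h8 : (64 : ℝ) / (2 ^ r * Real.log 2) = 64 * (1 / (2 ^ r * Real.log 2)) := by ring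
  rw [h8]
  linarith

/-- The sifting density, compared with `(log)^{-k}`. -/
theorem prod_dens_le (R : ℕ → Finset ℕ) (k : ℕ) (hk : k ≤ 8) (hRc : ∀ p, (R p).card ≤ k)
    (bad : Finset ℕ) (hgood : ∀ p, p.Prime → 16 < p → p ∉ bad → (R p).card = k) (r : ℕ) :
    ∏ i ∈ range r, ∏ p ∈ Bl i, (1 - dens R p)
      ≤ (64 / (2 ^ r * Real.log 2)) ^ k * ∏ p ∈ bad, (1 + 2 / (p : ℝ)) ^ k := by
  classical
  have hUprime : ∀ p ∈ U r, p.Prime ∧ 16 < p := by
    intro p hp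
    unfold U at hp
    obtain ⟨i, -, hi⟩ := mem_biUnion.1 hp
    exact ⟨(mem_Bl hi).2.2.2.1, (mem_Bl hi).2.2.2.2⟩
  have h1 : ∏ i ∈ range r, ∏ p ∈ Bl i, (1 - dens R p) = ∏ p ∈ U r, (1 - dens R p) := by
    unfold U
    rw [prod_biUnion]
    intro i _ j _ hij
    exact Bl_disjoint hij
  rw [h1]
  have hd : ∀ p ∈ U r, 0 ≤ 1 - dens R p := by
    intro p hp
    have h16 : (16 : ℝ) < p := by exact_mod_cast (hUprime p hp).2
    have h7 : ((R p).card : ℝ) ≤ 8 := by exact_mod_cast (hRc p).trans hk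
    unfold dens
    have : ((R p).card : ℝ) / p ≤ 1 := by rw [div_le_one (by linarith)]; linarith
    linarith
  have h2 : ∀ p ∈ U r, 1 - dens R p ≤ (1 - 1 / (p : ℝ)) ^ k
      * (if p ∈ bad then (1 + 2 / (p : ℝ)) ^ k else 1) := by
    intro p hp
    obtain ⟨hpp, h16⟩ := hUprime p hp
    have h16' : (16 : ℝ) < p := by exact_mod_cast h16
    have hp0 : (0 : ℝ) < p := by linarith
    split_ifs with hb
    · rw [← mul_pow]
      have h3 : 1 ≤ (1 - 1 / (p : ℝ)) * (1 + 2 / (p : ℝ)) := by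
        have h4 : (1 - 1 / (p : ℝ)) * (1 + 2 / (p : ℝ)) = 1 + 1 / p * (1 - 2 / p) := by
          field_simp; ring
        have h5 : 2 / (p : ℝ) ≤ 1 := by rw [div_le_one hp0]; linarith
        have h6 : 0 ≤ 1 / (p : ℝ) * (1 - 2 / p) := mul_nonneg (by positivity) (by linarith)
        linarith
      have h4 : 1 ≤ ((1 - 1 / (p : ℝ)) * (1 + 2 / (p : ℝ))) ^ k := one_le_pow₀ h3
      have h5 : 0 ≤ dens R p := by unfold dens; positivity
      linarith
    · rw [mul_one]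
      have h3 := hgood p hpp h16 hb
      have h4 : dens R p = k / p := by unfold dens; rw [h3]
      rw [h4]
      have h5 : (-2 : ℝ) ≤ -(1 / (p : ℝ)) := by
        have : 1 / (p : ℝ) ≤ 1 := by rw [div_le_one hp0]; linarith
        linarith
      have h6 := one_add_mul_le_pow h5 k
      have h7 : 1 + (k : ℝ) * -(1 / (p : ℝ)) = 1 - k / p := by ring
      rw [h7] at h6
      exact h6
  refine (prod_le_prod hd h2).trans ?_
  rw [prod_mul_distrib, prod_pow]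
  have hfac : ∀ p ∈ U r, 0 ≤ 1 - 1 / (p : ℝ) := by
    intro p hp
    have h16 : (16 : ℝ) < p := by exact_mod_cast (hUprime p hp).2
    have : 1 / (p : ℝ) ≤ 1 := by rw [div_le_one (by linarith)]; linarith
    linarith
  have h3 : (∏ p ∈ U r, (1 - 1 / (p : ℝ))) ^ k ≤ (64 / (2 ^ r * Real.log 2)) ^ k :=
    pow_le_pow_left₀ (prod_nonneg hfac) (prod_U_le r) k
  have h4 : ∏ p ∈ U r, (if p ∈ bad then (1 + 2 / (p : ℝ)) ^ k else 1)
      ≤ ∏ p ∈ bad, (1 + 2 / (p : ℝ)) ^ k := by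
    rw [← prod_filter]
    refine prod_le_prod_of_subset_of_one_le (fun p hp => (mem_filter.1 hp).2)
      (fun p _ => by positivity) (fun p _ _ => ?_)
    refine one_le_pow₀ ?_
    have : 0 ≤ 2 / (p : ℝ) := by positivity
    linarith
  refine mul_le_mul h3 h4 (prod_nonneg (fun p _ => ?_)) (by
    have : 0 < Real.log 2 := Real.log_pos (by norm_num)
    positivity)
  split_ifs
  · positivity
  · norm_num

/-- Upper bound sieve of dimension `k ≤ 8`. -/
theorem tuple_sieve : ∃ C : ℝ, 0 < C ∧ ∃ N₀ : ℕ, ∀ N : ℕ, N₀ ≤ N →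
    ∀ (R : ℕ → Finset ℕ) (k : ℕ), k ≤ 8 → (∀ p, R p ⊆ range p) → (∀ p, (R p).card ≤ k) →
    ∀ bad : Finset ℕ, (∀ p, p.Prime → 16 < p → p ∉ bad → (R p).card = k) →
    ∀ A : Finset ℕ, A ⊆ Icc 1 N →
      (∀ n ∈ A, ∀ p, p.Prime → 16 < p → p ^ 2 ≤ N → n % p ∉ R p) →
      (A.card : ℝ) ≤ C * (N / Real.log N ^ k) * ∏ p ∈ bad, (1 + 2 / (p : ℝ)) ^ k := by
  classical
  refine ⟨Real.exp (Real.exp 576) * 2400 ^ 8 + 2 ^ 110 * 25 ^ 8, by positivity, 2 ^ 18,
    fun N hN R k hk hRs hRc bad hgood A hAN hA => ?_⟩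
  have hN0 : N ≠ 0 := by
    have : 0 < 2 ^ 18 := by norm_num
    omega
  set l := Nat.log 2 N with hl
  set m := l / 18 with hm
  set r := Nat.log 2 m with hr
  have hl18 : 18 ≤ l := Nat.le_log_of_pow_le (by norm_num) hN
  have hm1 : 1 ≤ m := by omega
  have e1 : 2 ^ l ≤ N := Nat.pow_log_le_self 2 hN0
  have e2 : N < 2 ^ (l + 1) := Nat.lt_pow_succ_log_self (by norm_num) N
  have e3 : 2 ^ r ≤ m := Nat.pow_log_le_self 2 (by omega)
  have e4 : m < 2 ^ (r + 1) := Nat.lt_pow_succ_log_self (by norm_num) m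
  have e5 : 18 * 2 ^ r ≤ l := by omega
  have e6 : l + 1 ≤ 36 * 2 ^ r := by rw [pow_succ] at e4; omega
  have f1 : 2 ^ (18 * 2 ^ r) ≤ N := (Nat.pow_le_pow_right (by norm_num) e5).trans e1
  have f2 : N ≤ 2 ^ (36 * 2 ^ r) := e2.le.trans (Nat.pow_le_pow_right (by norm_num) e6)
  have hNr : (0 : ℝ) < N := by exact_mod_cast Nat.pos_of_ne_zero hN0
  have hlog2 : 0 < Real.log 2 := Real.log_pos (by norm_num)
  have hlogN : Real.log N ≤ 25 * 2 ^ r := by
    have h1 : Real.log N ≤ Real.log ((2 : ℝ) ^ (36 * 2 ^ r)) :=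
      Real.log_le_log hNr (by exact_mod_cast f2)
    rw [Real.log_pow] at h1
    push_cast at h1
    have h2 := Real.log_two_lt_d9
    have h3 : (0 : ℝ) < 2 ^ r := by positivity
    nlinarith
  have hlogN0 : 0 < Real.log N := Real.log_pos (by
    have : (2 : ℝ) ^ 18 ≤ N := by exact_mod_cast hN
    linarith)
  -- the sieve
  have hB : ∀ i < r, ∀ p ∈ Bl i, p.Prime ∧ R p ⊆ range p := fun i _ p hp =>
    ⟨(mem_Bl hp).2.2.2.1, hRs p⟩
  have hs := sieve_upper N R Bl (fun i => r - i) r hB (fun i _ j _ hij => Bl_disjoint hij)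
  have hsub : A.card
      ≤ ((Icc 1 N).filter (fun n => ∀ i < r, ∀ p ∈ Bl i, n % p ∉ R p)).card := by
    refine card_le_card (fun n hn => ?_)
    rw [mem_filter]
    refine ⟨hAN hn, fun i hi p hp => ?_⟩
    obtain ⟨h1, h2, h3, h4, h5⟩ := mem_Bl hp
    refine hA n hn p h4 h5 ?_
    have h6 : p ≤ 2 ^ 2 ^ r :=
      h3.trans (Nat.pow_le_pow_right (by norm_num) (Nat.pow_le_pow_right (by norm_num) hi))
    calc p ^ 2 ≤ (2 ^ 2 ^ r) ^ 2 := Nat.pow_le_pow_left h6 2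
      _ = 2 ^ (2 ^ r * 2) := by rw [← pow_mul]
      _ ≤ 2 ^ (18 * 2 ^ r) := Nat.pow_le_pow_right (by norm_num) (by omega)
      _ ≤ N := f1
  have hsub' : (A.card : ℝ)
      ≤ (((Icc 1 N).filter (fun n => ∀ i < r, ∀ p ∈ Bl i, n % p ∉ R p)).card : ℝ) := by
    exact_mod_cast hsub
  refine hsub'.trans (hs.trans ?_)
  have hR8 : ∀ p, (R p).card ≤ 8 := fun p => (hRc p).trans hk
  have hmain := (main_prod_le R hR8 r).trans (mul_le_mul_of_nonneg_left
    (prod_dens_le R k hk hRc bad hgood r) (Real.exp_pos _).le)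
  have herr := err_prod_le R hR8 r
  set F := ∏ p ∈ bad, (1 + 2 / (p : ℝ)) ^ k with hF
  have hF1 : 1 ≤ F := by
    rw [hF]
    calc (1 : ℝ) = ∏ p ∈ bad, (1 : ℝ) := by simp
      _ ≤ _ := prod_le_prod (fun _ _ => by norm_num) (fun p _ => one_le_pow₀ (by
        have : 0 ≤ 2 / (p : ℝ) := by positivity
        linarith))
  have hx : (0 : ℝ) < 2 ^ r := by positivity
  have g1 : (64 / (2 ^ r * Real.log 2)) ^ k ≤ 2400 ^ 8 / Real.log N ^ k := by
    have h1 : 64 / (2 ^ r * Real.log 2) ≤ 2400 / Real.log N := by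
      rw [div_le_div_iff₀ (by positivity) hlogN0]
      have := Real.log_two_gt_d9
      nlinarith
    calc (64 / (2 ^ r * Real.log 2)) ^ k ≤ (2400 / Real.log N) ^ k :=
          pow_le_pow_left₀ (by positivity) h1 k
      _ = 2400 ^ k / Real.log N ^ k := by rw [div_pow]
      _ ≤ 2400 ^ 8 / Real.log N ^ k :=
          div_le_div_of_nonneg_right (pow_le_pow_right₀ (by norm_num) hk) (by positivity)
  have g2 : (2 : ℝ) ^ (10 * 2 ^ r) ≤ 25 ^ 8 * (N / Real.log N ^ k) := by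
    have h1 : (2 : ℝ) ^ (10 * 2 ^ r) * 2 ^ (8 * 2 ^ r) ≤ (N : ℝ) := by
      have h0 : 10 * 2 ^ r + 8 * 2 ^ r = 18 * 2 ^ r := by ring
      rw [← pow_add, h0]
      exact_mod_cast f1
    have h2 : Real.log N ^ k ≤ 25 ^ 8 * 2 ^ (8 * 2 ^ r) := by
      have h3 : (2 : ℝ) ^ r ≤ 2 ^ 2 ^ r := by
        have : 2 ^ r ≤ 2 ^ 2 ^ r := Nat.pow_le_pow_right (by norm_num) (Nat.lt_two_pow_self).le
        exact_mod_cast this
      have h1r : (1 : ℝ) ≤ 2 ^ r := one_le_pow₀ (by norm_num)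
      calc Real.log N ^ k ≤ (25 * 2 ^ r) ^ k := pow_le_pow_left₀ hlogN0.le hlogN k
        _ ≤ (25 * 2 ^ r) ^ 8 := pow_le_pow_right₀ (by linarith) hk
        _ = 25 ^ 8 * (2 ^ r) ^ 8 := by rw [mul_pow]
        _ ≤ 25 ^ 8 * (2 ^ 2 ^ r) ^ 8 :=
            mul_le_mul_of_nonneg_left (pow_le_pow_left₀ hx.le h3 8) (by norm_num)
        _ = 25 ^ 8 * 2 ^ (8 * 2 ^ r) := by rw [← pow_mul]; congr 2; ring
    rw [mul_div_assoc', le_div_iff₀ (by positivity)]
    calc (2 : ℝ) ^ (10 * 2 ^ r) * Real.log N ^ k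
        ≤ 2 ^ (10 * 2 ^ r) * (25 ^ 8 * 2 ^ (8 * 2 ^ r)) :=
          mul_le_mul_of_nonneg_left h2 (by positivity)
      _ = 25 ^ 8 * (2 ^ (10 * 2 ^ r) * 2 ^ (8 * 2 ^ r)) := by ring
      _ ≤ 25 ^ 8 * N := mul_le_mul_of_nonneg_left h1 (by norm_num)
  have hq0 : 0 ≤ (N : ℝ) / Real.log N ^ k := by positivity
  have t1 : (N : ℝ) * ∏ i ∈ range r, D (2 * (r - i)) (Bl i) (dens R)
      ≤ Real.exp (Real.exp 576) * 2400 ^ 8 * (N / Real.log N ^ k) * F := by
    calc (N : ℝ) * ∏ i ∈ range r, D (2 * (r - i)) (Bl i) (dens R)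
        ≤ N * (Real.exp (Real.exp 576) * ((64 / (2 ^ r * Real.log 2)) ^ k * F)) :=
          mul_le_mul_of_nonneg_left hmain hNr.le
      _ ≤ N * (Real.exp (Real.exp 576) * (2400 ^ 8 / Real.log N ^ k * F)) := by
          refine mul_le_mul_of_nonneg_left (mul_le_mul_of_nonneg_left
            (mul_le_mul_of_nonneg_right g1 (by linarith)) (Real.exp_pos _).le) hNr.le
      _ = _ := by ring
  have t2 : ∏ i ∈ range r, Er R (2 * (r - i)) (Bl i)
      ≤ 2 ^ 110 * 25 ^ 8 * (N / Real.log N ^ k) * F := by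
    calc ∏ i ∈ range r, Er R (2 * (r - i)) (Bl i) ≤ 2 ^ 110 * (2 : ℝ) ^ (10 * 2 ^ r) := herr
      _ ≤ 2 ^ 110 * (25 ^ 8 * (N / Real.log N ^ k)) :=
          mul_le_mul_of_nonneg_left g2 (by positivity)
      _ = 2 ^ 110 * 25 ^ 8 * (N / Real.log N ^ k) * 1 := by ring
      _ ≤ _ := mul_le_mul_of_nonneg_left hF1 (by positivity)
  calc _ ≤ Real.exp (Real.exp 576) * 2400 ^ 8 * (N / Real.log N ^ k) * F
        + 2 ^ 110 * 25 ^ 8 * (N / Real.log N ^ k) * F := add_le_add t1 t2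
    _ = _ := by ring

end Pool.Agent.H70.SP
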