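import Mathlib
import Pool.Agent.H70.SP.Tuple
import Pool.Agent.H70.SP.Avg

/-!
Upper bounds for the number of `n` such that several translates of `n` are all prime.
-/

set_option autoImplicit false

namespace Pool.Agent.H70.SP

open Finset

/-- residues `a` with `p ∣ a + h` for some `h ∈ H` -/
noncomputable def Rh (H : Finset ℤ) (p : ℕ) : Finset ℕ :=
  (range p).filter (fun a => ∃ h ∈ H, (p : ℤ) ∣ (a : ℤ) + h)

theorem Rh_subset (H : Finset ℤ) (p : ℕ) :
    Rh H p ⊆ H.image (fun h => ((-h) % (p : ℤ)).toNat) := by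
  intro a ha
  unfold Rh at ha
  rw [mem_filter, mem_range] at ha
  obtain ⟨hap, h, hh, hd⟩ := ha
  rw [mem_image]
  refine ⟨h, hh, ?_⟩
  have hp : (0 : ℤ) < p := by exact_mod_cast (by omega : 0 < p)
  have h1 : (-h) % (p : ℤ) = (a : ℤ) % p := by
    have h2 : -h ≡ (a : ℤ) [ZMOD p] := Int.modEq_iff_dvd.2 (by
      rw [sub_neg_eq_add]; exact hd)
    exact h2
  rw [h1, Int.emod_eq_of_lt (Int.natCast_nonneg a) (by exact_mod_cast hap)]
  simp

theorem Rh_card_le (H : Finset ℤ) (p : ℕ) : (Rh H p).card ≤ H.card :=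
  (card_le_card (Rh_subset H p)).trans card_image_le

theorem Rh_card_eq (H : Finset ℤ) (p : ℕ) (hp : 0 < p)
    (hinj : ∀ h ∈ H, ∀ h' ∈ H, h ≠ h' → ¬ (p : ℤ) ∣ h - h') : (Rh H p).card = H.card := by
  refine le_antisymm (Rh_card_le H p) ?_
  have hpz : (0 : ℤ) < p := by exact_mod_cast hp
  have hne : (p : ℤ) ≠ 0 := hpz.ne'
  refine card_le_card_of_injOn (fun h => ((-h) % (p : ℤ)).toNat) ?_ ?_
  · intro h hh
    have h0 : 0 ≤ (-h) % (p : ℤ) := Int.emod_nonneg _ hne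
    have h1 : (-h) % (p : ℤ) < p := Int.emod_lt_of_pos _ hpz
    simp only [Rh, coe_filter, mem_range, Set.mem_ofPred_eq]
    refine ⟨by omega, h, hh, ?_⟩
    rw [Int.toNat_of_nonneg h0]
    have h2 : (-h) % (p : ℤ) + h = -((p : ℤ) * ((-h) / p)) := by
      have := Int.emod_add_mul_ediv (-h) p
      linarith
    rw [h2]
    exact (dvd_neg.2 (dvd_mul_right _ _))
  · intro h hh h' hh' heq
    by_contra hcon
    refine hinj h hh h' hh' hcon ?_
    have h0 : 0 ≤ (-h) % (p : ℤ) := Int.emod_nonneg _ hne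
    have h0' : 0 ≤ (-h') % (p : ℤ) := Int.emod_nonneg _ hne
    have h1 : (-h) % (p : ℤ) = (-h') % (p : ℤ) := by
      have := congrArg (fun n : ℕ => (n : ℤ)) heq
      simp only [Int.toNat_of_nonneg h0, Int.toNat_of_nonneg h0'] at this
      exact this
    have h2 : (p : ℤ) ∣ (-h') - (-h) := Int.ModEq.dvd h1
    have h3 : -h' - -h = h - h' := by ring
    rwa [h3] at h2

/-- Upper bound for the number of `n ≤ N` with all `n + h`, `h ∈ H`, prime. -/
theorem tuple_primes : ∃ C : ℝ, 0 < C ∧ ∃ N₀ : ℕ, ∀ N : ℕ, N₀ ≤ N → ∀ H : Finset ℤ, H.card ≤ 8 →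
    ∀ bad : Finset ℕ, (∀ p : ℕ, p.Prime → 16 < p → p ∉ bad →
      ∀ h ∈ H, ∀ h' ∈ H, h ≠ h' → ¬ (p : ℤ) ∣ h - h') →
    ∀ A : Finset ℕ, A ⊆ Icc 1 N → (∀ n ∈ A, ∀ h ∈ H, ∃ q : ℕ, q.Prime ∧ (n : ℤ) + h = q) →
      (A.card : ℝ) ≤ C * (N / Real.log N ^ H.card) * ∏ p ∈ bad, (1 + 2 / (p : ℝ)) ^ H.card := by
  classical
  obtain ⟨C, hC, N₁, hN₁⟩ := tuple_sieve
  have ev : ∀ᶠ N : ℕ in Filter.atTop, 64 * Real.log (N : ℝ) ^ 16 ≤ N ∧ 1 ≤ Real.log (N : ℝ) := by
    have h1 : ∀ᶠ x : ℝ in Filter.atTop, ‖Real.log x ^ 16‖ ≤ (1 / 64) * ‖id x‖ :=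
      (Real.isLittleO_pow_log_id_atTop (n := 16)).bound (by norm_num)
    have h2 : ∀ᶠ x : ℝ in Filter.atTop, 64 * Real.log x ^ 16 ≤ x ∧ 1 ≤ Real.log x := by
      filter_upwards [h1, Filter.eventually_ge_atTop (0 : ℝ),
        Real.tendsto_log_atTop.eventually_ge_atTop 1] with x hx hx0 hx1
      rw [Real.norm_of_nonneg (by positivity), Real.norm_of_nonneg (by simpa using hx0)] at hx
      simp only [id] at hx
      exact ⟨by linarith, hx1⟩
    exact tendsto_natCast_atTop_atTop.eventually h2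
  obtain ⟨N₂, hN₂⟩ := Filter.eventually_atTop.1 ev
  refine ⟨C + 1, by linarith, max (max N₁ N₂) 1, fun N hN H hH bad hbad A hAN hA => ?_⟩
  have hNN₁ : N₁ ≤ N := le_trans (le_trans (le_max_left _ _) (le_max_left _ _)) hN
  have hNN₂ : N₂ ≤ N := le_trans (le_trans (le_max_right _ _) (le_max_left _ _)) hN
  have hN1 : 1 ≤ N := le_trans (le_max_right _ _) hN
  obtain ⟨h64, hlog1⟩ := hN₂ N hNN₂
  have hNr : (1 : ℝ) ≤ N := by exact_mod_cast hN1
  set k := H.card with hk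
  set F := ∏ p ∈ bad, (1 + 2 / (p : ℝ)) ^ k with hF
  have hF1 : 1 ≤ F := by
    rw [hF]
    calc (1 : ℝ) = ∏ p ∈ bad, (1 : ℝ) := by simp
      _ ≤ _ := prod_le_prod (fun _ _ => by norm_num) (fun p _ => one_le_pow₀ (by
        have : 0 ≤ 2 / (p : ℝ) := by positivity
        linarith))
  -- the large part
  set A1 : Finset ℕ := A.filter (fun n : ℕ => ∀ h ∈ H, (N : ℤ) < ((n : ℤ) + h) ^ 2) with hA1
  set A2 := A \ A1 with hA2
  have hA1sub : A1 ⊆ A := filter_subset _ _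
  have hsplit : A.card = A1.card + A2.card := by
    have := card_sdiff_add_card_eq_card hA1sub
    rw [← hA2] at this
    omega
  have hb1 : (A1.card : ℝ) ≤ C * (N / Real.log N ^ k) * F := by
    refine hN₁ N hNN₁ (Rh H) k hH (fun p => filter_subset _ _) (Rh_card_le H) bad
      (fun p hp h16 hpb => Rh_card_eq H p hp.pos (hbad p hp h16 hpb)) A1
      ((filter_subset _ _).trans hAN) ?_
    intro n hn p hp h16 hpN hmem
    rw [hA1, mem_filter] at hn
    simp only [Rh, mem_filter, mem_range] at hmem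
    obtain ⟨-, h, hh, hd⟩ := hmem
    obtain ⟨q, hq, hqe⟩ := hA n hn.1 h hh
    have h1 : (p : ℤ) ∣ (n : ℤ) + h := by
      have h2 : (n : ℤ) + h = ((n % p : ℕ) : ℤ) + h + p * ((n / p : ℕ) : ℤ) := by
        have h3 : (n : ℤ) = ((n % p : ℕ) : ℤ) + p * ((n / p : ℕ) : ℤ) := by
          exact_mod_cast (Nat.mod_add_div n p).symm
        linarith
      rw [h2]
      exact dvd_add hd (dvd_mul_right _ _)
    rw [hqe] at h1
    have h2 : p ∣ q := by exact_mod_cast h1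
    have h3 : p = q := (Nat.prime_dvd_prime_iff_eq hp hq).1 h2
    have h4 := hn.2 h hh
    rw [hqe, ← h3] at h4
    have h5 : N < p ^ 2 := by exact_mod_cast h4
    omega
  -- the small part
  have hb2 : A2.card ≤ k * Nat.sqrt N := by
    have hsub : A2 ⊆ H.biUnion (fun h => (Icc 1 (Nat.sqrt N)).image
        (fun q : ℕ => ((q : ℤ) - h).toNat)) := by
      intro n hn
      rw [hA2, mem_sdiff, hA1, mem_filter] at hn
      obtain ⟨hnA, hn2⟩ := hn
      have hn2 : ¬ ∀ h ∈ H, (N : ℤ) < ((n : ℤ) + h) ^ 2 := fun hc => hn2 ⟨hnA, hc⟩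
      push Not at hn2
      obtain ⟨h, hh, hle⟩ := hn2
      obtain ⟨q, hq, hqe⟩ := hA n hnA h hh
      rw [mem_biUnion]
      refine ⟨h, hh, ?_⟩
      rw [mem_image]
      refine ⟨q, ?_, ?_⟩
      · rw [mem_Icc]
        refine ⟨hq.one_lt.le, ?_⟩
        rw [hqe] at hle
        have h5 : q ^ 2 ≤ N := by exact_mod_cast hle
        exact Nat.le_sqrt'.2 h5
      · rw [← hqe]; simp
    refine (card_le_card hsub).trans (card_biUnion_le.trans ?_)
    refine (sum_le_card_nsmul _ _ (Nat.sqrt N) (fun h _ => ?_)).trans (by rw [smul_eq_mul])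
    refine card_image_le.trans ?_
    simp
  have hb2' : (A2.card : ℝ) ≤ N / Real.log N ^ k := by
    have h1 : (A2.card : ℝ) ≤ 8 * √N := by
      have h2 : (A2.card : ℝ) ≤ (k : ℝ) * (Nat.sqrt N : ℝ) := by exact_mod_cast hb2
      have h3 : (Nat.sqrt N : ℝ) ≤ √N := Real.nat_sqrt_le_real_sqrt
      have h4 : (k : ℝ) ≤ 8 := by exact_mod_cast hH
      have h5 : (0 : ℝ) ≤ (Nat.sqrt N : ℝ) := Nat.cast_nonneg _
      nlinarith
    have h2 : 8 * Real.log N ^ 8 ≤ √N := by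
      refine Real.le_sqrt_of_sq_le ?_
      have h3 : (8 * Real.log (N : ℝ) ^ 8) ^ 2 = 64 * Real.log (N : ℝ) ^ 16 := by ring
      rw [h3]
      exact h64
    have h3 : Real.log N ^ k ≤ Real.log N ^ 8 := pow_le_pow_right₀ hlog1 hH
    rw [le_div_iff₀ (by positivity)]
    have h4 : √N * √N = N := Real.mul_self_sqrt (by linarith)
    have h5 : 0 ≤ √N := Real.sqrt_nonneg _
    calc (A2.card : ℝ) * Real.log N ^ k ≤ (8 * √N) * Real.log N ^ 8 :=
          mul_le_mul h1 h3 (by positivity) (by positivity)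
      _ = √N * (8 * Real.log N ^ 8) := by ring
      _ ≤ √N * √N := mul_le_mul_of_nonneg_left h2 h5
      _ = (N : ℝ) := h4
  have hq0 : 0 ≤ (N : ℝ) / Real.log N ^ k := by positivity
  rw [hsplit]
  push_cast
  have h6 : (N : ℝ) / Real.log N ^ k ≤ N / Real.log N ^ k * F := by
    nlinarith
  calc (A1.card : ℝ) + A2.card ≤ C * (N / Real.log N ^ k) * F + N / Real.log N ^ k * F := by
        linarith
    _ = (C + 1) * (N / Real.log N ^ k) * F := by ring

end Pool.Agent.H70.SP
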