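import Mathlib
import Pool.Agent.H70.SP.Pairs

/-!
First and second moment of the number of `x ≤ y` with `n - x` and `n + x` both prime.
-/

set_option autoImplicit false

namespace Pool.Agent.H70.SP

open Finset

/-- the `n ≤ N` with `n - x` and `n + x` prime -/
def P2 (N x : ℕ) : Finset ℕ := (Icc 1 N).filter (fun n => (n - x).Prime ∧ (n + x).Prime)

theorem P2_shift {N x n : ℕ} (hn : n ∈ P2 N x) :
    (∃ q : ℕ, q.Prime ∧ (n : ℤ) + x = q) ∧ (∃ q : ℕ, q.Prime ∧ (n : ℤ) + (-x) = q) := by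
  unfold P2 at hn
  rw [mem_filter] at hn
  obtain ⟨-, h1, h2⟩ := hn
  refine ⟨⟨n + x, h2, by push_cast; ring⟩, ⟨n - x, h1, ?_⟩⟩
  have : 0 < n - x := h1.pos
  have h3 : x ≤ n := by omega
  push_cast [h3]
  ring

theorem prime_not_dvd {p m : ℕ} (hp : p.Prime) (hm : m ≠ 0) (h : p ∉ m.primeFactors) : ¬ p ∣ m :=
  fun hd => h (Nat.mem_primeFactors.2 ⟨hp, hd, hm⟩)

theorem two_le : ∃ C : ℝ, 0 < C ∧ ∃ N₀ : ℕ, ∀ N : ℕ, N₀ ≤ N → ∀ x : ℕ, 1 ≤ x →
    ((P2 N x).card : ℝ) ≤ C * (N / Real.log N ^ 2) * F x := by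
  classical
  obtain ⟨C, hC, N₀, hN₀⟩ := tuple_primes
  refine ⟨C, hC, max N₀ 3, fun N hN x hx => ?_⟩
  have hcard : ({(x : ℤ), -(x : ℤ)} : Finset ℤ).card = 2 := by
    rw [card_pair]; omega
  have h := hN₀ N (le_trans (le_max_left _ _) hN) {(x : ℤ), -(x : ℤ)} (by rw [hcard]; norm_num)
    x.primeFactors ?_ (P2 N x) (filter_subset _ _) ?_
  · rw [hcard] at h
    refine h.trans ?_
    have hlog : 0 < Real.log N := Real.log_pos (by
      have : (3 : ℝ) ≤ N := by exact_mod_cast le_trans (le_max_right _ _) hN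
      linarith)
    refine mul_le_mul_of_nonneg_left ?_ (by positivity)
    unfold F
    refine prod_le_prod (fun p _ => by positivity) (fun p _ => ?_)
    refine pow_le_pow_right₀ ?_ (by norm_num)
    have : 0 ≤ 2 / (p : ℝ) := by positivity
    linarith
  · intro p hp h16 hbad
    have hnd : ¬ p ∣ x := prime_not_dvd hp (by omega) hbad
    have hpz : Prime (p : ℤ) := Nat.prime_iff_prime_int.1 hp
    have h2 : ¬ (p : ℤ) ∣ 2 := by
      intro hd
      have : p ∣ 2 := by exact_mod_cast hd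
      have := Nat.le_of_dvd (by norm_num) this
      omega
    have h3 : ¬ (p : ℤ) ∣ 2 * x := by
      intro hd
      rcases hpz.dvd_or_dvd hd with h4 | h4
      · exact h2 h4
      · exact hnd (by exact_mod_cast h4)
    intro h hh h' hh' hne hd
    simp only [mem_insert, mem_singleton] at hh hh'
    rcases hh with rfl | rfl <;> rcases hh' with rfl | rfl
    · exact hne rfl
    · apply h3
      have : (x : ℤ) - -x = 2 * x := by ring
      rwa [this] at hd
    · apply h3
      have : -(x : ℤ) - x = -(2 * x) := by ring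
      rw [this] at hd
      exact (dvd_neg.1 hd)
    · exact hne rfl
  · intro n hn h hh
    obtain ⟨h1, h2⟩ := P2_shift hn
    simp only [mem_insert, mem_singleton] at hh
    rcases hh with rfl | rfl
    · exact h1
    · exact h2

theorem F_union_le (A B : Finset ℕ) :
    ∏ p ∈ A ∪ B, (1 + 2 / (p : ℝ)) ^ 4
      ≤ (∏ p ∈ A, (1 + 2 / (p : ℝ)) ^ 4) * ∏ p ∈ B, (1 + 2 / (p : ℝ)) ^ 4 := by
  classical
  have h1 : A ∪ B = A ∪ (B \ A) := by simp
  rw [h1, prod_union disjoint_sdiff]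
  refine mul_le_mul_of_nonneg_left ?_ (prod_nonneg (fun p _ => by positivity))
  refine prod_le_prod_of_subset_of_one_le sdiff_subset (fun p _ => by positivity)
    (fun p _ _ => one_le_pow₀ ?_)
  have : 0 ≤ 2 / (p : ℝ) := by positivity
  linarith

theorem four_le : ∃ C : ℝ, 0 < C ∧ ∃ N₀ : ℕ, ∀ N : ℕ, N₀ ≤ N → ∀ x y : ℕ, 1 ≤ x → x < y →
    ((P2 N x ∩ P2 N y).card : ℝ)
      ≤ C * (N / Real.log N ^ 4) * (F x * F y * (F (x + y) * F (y - x))) := by
  classical
  obtain ⟨C, hC, N₀, hN₀⟩ := tuple_primes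
  refine ⟨C, hC, max N₀ 3, fun N hN x y hx hxy => ?_⟩
  have hcard : ({(x : ℤ), -(x : ℤ), (y : ℤ), -(y : ℤ)} : Finset ℤ).card = 4 := by
    rw [card_insert_of_notMem, card_insert_of_notMem, card_insert_of_notMem, card_singleton]
    all_goals simp only [mem_insert, mem_singleton, not_or]
    · omega
    · constructor <;> omega
    · refine ⟨?_, ?_, ?_⟩ <;> omega
  have h := hN₀ N (le_trans (le_max_left _ _) hN) {(x : ℤ), -(x : ℤ), (y : ℤ), -(y : ℤ)}
    (by rw [hcard]; norm_num)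
    ((x.primeFactors ∪ y.primeFactors) ∪ ((x + y).primeFactors ∪ (y - x).primeFactors))
    ?_ (P2 N x ∩ P2 N y) (inter_subset_left.trans (filter_subset _ _)) ?_
  · rw [hcard] at h
    refine h.trans ?_
    have hlog : 0 < Real.log N := Real.log_pos (by
      have : (3 : ℝ) ≤ N := by exact_mod_cast le_trans (le_max_right _ _) hN
      linarith)
    refine mul_le_mul_of_nonneg_left ?_ (by positivity)
    refine (F_union_le _ _).trans ?_
    have n1 : 0 ≤ ∏ p ∈ (x + y).primeFactors ∪ (y - x).primeFactors, (1 + 2 / (p : ℝ)) ^ 4 :=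
      prod_nonneg (fun p _ => by positivity)
    have n2 : 0 ≤ F x * F y := by
      have := F_one_le x
      have := F_one_le y
      nlinarith
    exact mul_le_mul (F_union_le _ _) (F_union_le _ _) n1 n2
  · intro p hp h16 hbad
    simp only [mem_union, not_or] at hbad
    obtain ⟨⟨b1, b2⟩, b3, b4⟩ := hbad
    have hpz : Prime (p : ℤ) := Nat.prime_iff_prime_int.1 hp
    have h2 : ¬ (p : ℤ) ∣ 2 := by
      intro hd
      have : p ∣ 2 := by exact_mod_cast hd
      have := Nat.le_of_dvd (by norm_num) this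
      omega
    have c1 : ¬ (p : ℤ) ∣ (x : ℤ) := by
      intro hd; exact prime_not_dvd hp (by omega) b1 (by exact_mod_cast hd)
    have c2 : ¬ (p : ℤ) ∣ (y : ℤ) := by
      intro hd; exact prime_not_dvd hp (by omega) b2 (by exact_mod_cast hd)
    have c3 : ¬ (p : ℤ) ∣ (x : ℤ) + y := by
      intro hd; exact prime_not_dvd hp (by omega) b3 (by exact_mod_cast hd)
    have c4 : ¬ (p : ℤ) ∣ (y : ℤ) - x := by
      intro hd
      refine prime_not_dvd hp (by omega) b4 ?_
      have h5 : ((y - x : ℕ) : ℤ) = (y : ℤ) - x := by push_cast [hxy.le]; ring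
      rw [← h5] at hd
      exact_mod_cast hd
    have d1 : ¬ (p : ℤ) ∣ 2 * x := fun hd => (hpz.dvd_or_dvd hd).elim h2 c1
    have d2 : ¬ (p : ℤ) ∣ 2 * y := fun hd => (hpz.dvd_or_dvd hd).elim h2 c2
    have e1 : ¬ (p : ℤ) ∣ -(2 * (x : ℤ)) := fun hd => d1 (dvd_neg.1 hd)
    have e2 : ¬ (p : ℤ) ∣ -(2 * (y : ℤ)) := fun hd => d2 (dvd_neg.1 hd)
    have e3 : ¬ (p : ℤ) ∣ -((x : ℤ) + y) := fun hd => c3 (dvd_neg.1 hd)
    have e4 : ¬ (p : ℤ) ∣ -((y : ℤ) - x) := fun hd => c4 (dvd_neg.1 hd)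
    intro h hh h' hh' hne hd
    simp only [mem_insert, mem_singleton] at hh hh'
    rcases hh with rfl | rfl | rfl | rfl <;> rcases hh' with rfl | rfl | rfl | rfl
    · exact hne rfl
    · exact d1 (by convert hd using 1; ring)
    · exact e4 (by convert hd using 1; ring)
    · exact c3 (by convert hd using 1; ring)
    · exact e1 (by convert hd using 1; ring)
    · exact hne rfl
    · exact e3 (by convert hd using 1; ring)
    · exact c4 (by convert hd using 1; ring)
    · exact c4 (by convert hd using 1)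
    · exact c3 (by convert hd using 1; ring)
    · exact hne rfl
    · exact d2 (by convert hd using 1; ring)
    · exact e3 (by convert hd using 1; ring)
    · exact e4 (by convert hd using 1; ring)
    · exact e2 (by convert hd using 1; ring)
    · exact hne rfl
  · intro n hn h hh
    rw [mem_inter] at hn
    obtain ⟨h1, h2⟩ := P2_shift hn.1
    obtain ⟨h3, h4⟩ := P2_shift hn.2
    simp only [mem_insert, mem_singleton] at hh
    rcases hh with rfl | rfl | rfl | rfl
    · exact h1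
    · exact h2
    · exact h3
    · exact h4

theorem amgm4 (a b c d : ℝ) : a * b * (c * d) ≤ (a ^ 4 + b ^ 4 + c ^ 4 + d ^ 4) / 4 := by
  nlinarith [sq_nonneg (a ^ 2 - b ^ 2), sq_nonneg (c ^ 2 - d ^ 2), sq_nonneg (a * b - c * d)]

/-- number of solutions -/
def X (N y n : ℕ) : ℕ := ((Icc 1 y).filter (fun x => n ∈ P2 N x)).card

theorem first_moment_eq (N y : ℕ) :
    ∑ n ∈ Icc 1 N, (X N y n : ℝ) = ∑ x ∈ Icc 1 y, ((P2 N x).card : ℝ) := by
  classical
  have h1 : ∑ n ∈ Icc 1 N, X N y n = ∑ x ∈ Icc 1 y, (P2 N x).card := by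
    unfold X
    simp only [card_filter]
    rw [sum_comm]
    refine sum_congr rfl (fun x _ => ?_)
    rw [← card_filter]
    congr 1
    ext n
    simp only [P2, mem_filter, mem_Icc]
    tauto
  exact_mod_cast h1

theorem second_moment_eq (N y : ℕ) :
    ∑ n ∈ Icc 1 N, (X N y n : ℝ) ^ 2
      = ∑ x ∈ Icc 1 y, ∑ x' ∈ Icc 1 y, ((P2 N x ∩ P2 N x').card : ℝ) := by
  classical
  have h1 : ∑ n ∈ Icc 1 N, (X N y n) ^ 2 = ∑ x ∈ Icc 1 y, ∑ x' ∈ Icc 1 y, (P2 N x ∩ P2 N x').card := by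
    have h2 : ∀ n ∈ Icc 1 N, (X N y n) ^ 2
        = ∑ x ∈ Icc 1 y, ∑ x' ∈ Icc 1 y, (if n ∈ P2 N x ∩ P2 N x' then 1 else 0) := by
      intro n _
      unfold X
      rw [sq, card_filter, sum_mul_sum]
      refine sum_congr rfl (fun x _ => sum_congr rfl (fun x' _ => ?_))
      by_cases h3 : n ∈ P2 N x <;> by_cases h4 : n ∈ P2 N x' <;> simp [h3, h4]
    rw [sum_congr rfl h2, sum_comm]
    refine sum_congr rfl (fun x _ => ?_)
    rw [sum_comm]
    refine sum_congr rfl (fun x' _ => ?_)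
    rw [← card_filter]
    congr 1
    ext n
    simp only [P2, mem_filter, mem_Icc, mem_inter]
    tauto
  exact_mod_cast h1

theorem sum_F_le (y : ℕ) : ∑ x ∈ Icc 1 y, F x ≤ y * Real.exp (2 ^ 17) := by
  refine (sum_le_sum (fun x _ => ?_)).trans (avg_F4 y)
  have := F_one_le x
  calc F x = F x ^ 1 := by ring
    _ ≤ F x ^ 4 := pow_le_pow_right₀ this (by norm_num)

end Pool.Agent.H70.SP
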