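import Mathlib
import Pool.Agent.H70.SP.Moments

/-!
Bounds for the first and second moments.
-/

set_option autoImplicit false

namespace Pool.Agent.H70.SP

open Finset Pool.Agent.H70.LP

theorem first_upper : ∃ C : ℝ, 0 < C ∧ ∃ N₀ : ℕ, ∀ N : ℕ, N₀ ≤ N → ∀ y : ℕ,
    ∑ n ∈ Icc 1 N, (X N y n : ℝ) ≤ C * (N / Real.log N ^ 2 * y) := by
  obtain ⟨C, hC, N₀, hN₀⟩ := two_le
  refine ⟨C * Real.exp (2 ^ 17), by positivity, max N₀ 3, fun N hN y => ?_⟩
  have hlog : 0 < Real.log N := Real.log_pos (by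
    have : (3 : ℝ) ≤ N := by exact_mod_cast le_trans (le_max_right _ _) hN
    linarith)
  rw [first_moment_eq]
  calc ∑ x ∈ Icc 1 y, ((P2 N x).card : ℝ)
      ≤ ∑ x ∈ Icc 1 y, C * (N / Real.log N ^ 2) * F x :=
        sum_le_sum (fun x hx => hN₀ N (le_trans (le_max_left _ _) hN) x (mem_Icc.1 hx).1)
    _ = C * (N / Real.log N ^ 2) * ∑ x ∈ Icc 1 y, F x := by rw [mul_sum]
    _ ≤ C * (N / Real.log N ^ 2) * (y * Real.exp (2 ^ 17)) :=
        mul_le_mul_of_nonneg_left (sum_F_le y) (by positivity)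
    _ = _ := by ring

theorem sum_shift_le (x y : ℕ) (hx : x ∈ Icc 1 y) :
    ∑ x' ∈ Icc 1 y, F (x + x') ^ 4 ≤ 2 * y * Real.exp (2 ^ 17) := by
  classical
  rw [mem_Icc] at hx
  have h1 : ∑ x' ∈ Icc 1 y, F (x + x') ^ 4 = ∑ m ∈ (Icc 1 y).image (fun x' => x + x'), F m ^ 4 := by
    rw [sum_image]
    intro a _ b _ h
    simpa using h
  rw [h1]
  have h2 : (Icc 1 y).image (fun x' => x + x') ⊆ Icc 1 (2 * y) := by
    intro m hm
    rw [mem_image] at hm
    obtain ⟨a, ha, rfl⟩ := hm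
    rw [mem_Icc] at ha ⊢
    omega
  refine (sum_le_sum_of_subset_of_nonneg h2 (fun m _ _ => by
    have := F_one_le m; positivity)).trans ?_
  have := avg_F4 (2 * y)
  push_cast at this
  exact this

theorem sum_diff_le (x y : ℕ) (hx : x ∈ Icc 1 y) :
    ∑ x' ∈ (Icc 1 y).erase x, F ((x - x') + (x' - x)) ^ 4 ≤ 2 * y * Real.exp (2 ^ 17) := by
  classical
  rw [mem_Icc] at hx
  have hsplit : (Icc 1 y).erase x = (Icc 1 (x - 1)) ∪ (Icc (x + 1) y) := by
    ext a; simp only [mem_erase, mem_union, mem_Icc]; omega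
  have hdis : Disjoint (Icc 1 (x - 1)) (Icc (x + 1) y) := by
    rw [disjoint_left]; intro a ha hb; rw [mem_Icc] at ha hb; omega
  rw [hsplit, sum_union hdis]
  have hF0 : ∀ m, 0 ≤ F m ^ 4 := fun m => by have := F_one_le m; positivity
  have h1 : ∑ x' ∈ Icc 1 (x - 1), F ((x - x') + (x' - x)) ^ 4 ≤ ∑ m ∈ Icc 1 y, F m ^ 4 := by
    have e1 : ∑ x' ∈ Icc 1 (x - 1), F ((x - x') + (x' - x)) ^ 4
        = ∑ m ∈ (Icc 1 (x - 1)).image (fun x' => (x - x') + (x' - x)), F m ^ 4 := by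
      rw [sum_image]
      intro a ha b hb h
      simp only [coe_Icc, Set.mem_Icc] at ha hb
      simp only at h
      omega
    rw [e1]
    refine sum_le_sum_of_subset_of_nonneg (fun m hm => ?_) (fun m _ _ => hF0 m)
    rw [mem_image] at hm
    obtain ⟨a, ha, rfl⟩ := hm
    rw [mem_Icc] at ha ⊢
    omega
  have h2 : ∑ x' ∈ Icc (x + 1) y, F ((x - x') + (x' - x)) ^ 4 ≤ ∑ m ∈ Icc 1 y, F m ^ 4 := by
    have e1 : ∑ x' ∈ Icc (x + 1) y, F ((x - x') + (x' - x)) ^ 4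
        = ∑ m ∈ (Icc (x + 1) y).image (fun x' => (x - x') + (x' - x)), F m ^ 4 := by
      rw [sum_image]
      intro a ha b hb h
      simp only [coe_Icc, Set.mem_Icc] at ha hb
      simp only at h
      omega
    rw [e1]
    refine sum_le_sum_of_subset_of_nonneg (fun m hm => ?_) (fun m _ _ => hF0 m)
    rw [mem_image] at hm
    obtain ⟨a, ha, rfl⟩ := hm
    rw [mem_Icc] at ha ⊢
    omega
  have := avg_F4 y
  linarith

theorem second_upper : ∃ C : ℝ, 0 < C ∧ ∃ N₀ : ℕ, ∀ N : ℕ, N₀ ≤ N → ∀ y : ℕ,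
    ∑ n ∈ Icc 1 N, (X N y n : ℝ) ^ 2
      ≤ C * (N / Real.log N ^ 2 * y + N / Real.log N ^ 4 * (y : ℝ) ^ 2) := by
  classical
  obtain ⟨C1, hC1, N₁, hN₁⟩ := first_upper
  obtain ⟨C2, hC2, N₂, hN₂⟩ := four_le
  set E := Real.exp (2 ^ 17) with hE
  have hE0 : 0 < E := Real.exp_pos _
  refine ⟨C1 + 2 * C2 * E, by positivity, max (max N₁ N₂) 3, fun N hN y => ?_⟩
  have hlog : 0 < Real.log N := Real.log_pos (by
    have : (3 : ℝ) ≤ N := by exact_mod_cast le_trans (le_max_right _ _) hN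
    linarith)
  have hNN₁ : N₁ ≤ N := le_trans (le_trans (le_max_left _ _) (le_max_left _ _)) hN
  have hNN₂ : N₂ ≤ N := le_trans (le_trans (le_max_right _ _) (le_max_left _ _)) hN
  rw [second_moment_eq]
  have h1 : ∀ x ∈ Icc 1 y, ∑ x' ∈ Icc 1 y, ((P2 N x ∩ P2 N x').card : ℝ)
      ≤ ((P2 N x).card : ℝ) + ∑ x' ∈ (Icc 1 y).erase x, (C2 * (N / Real.log N ^ 4) / 4)
        * (F x ^ 4 + F x' ^ 4 + F (x + x') ^ 4 + F ((x - x') + (x' - x)) ^ 4) := by
    intro x hx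
    rw [← add_sum_erase _ _ hx, inter_self]
    refine add_le_add le_rfl (sum_le_sum (fun x' hx' => ?_))
    rw [mem_erase, mem_Icc] at hx'
    rw [mem_Icc] at hx
    have hcoef : 0 ≤ C2 * (N / Real.log N ^ 4) := by positivity
    rcases lt_or_gt_of_ne hx'.1 with h | h
    · -- x' < x
      rw [inter_comm]
      refine (hN₂ N hNN₂ x' x hx'.2.1 h).trans ?_
      have h2 := mul_le_mul_of_nonneg_left (amgm4 (F x') (F x) (F (x' + x)) (F (x - x'))) hcoef
      refine h2.trans (le_of_eq ?_)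
      have e1 : (x - x') + (x' - x) = x - x' := by omega
      rw [e1, add_comm x' x]
      ring
    · refine (hN₂ N hNN₂ x x' hx.1 h).trans ?_
      have h2 := mul_le_mul_of_nonneg_left (amgm4 (F x) (F x') (F (x + x')) (F (x' - x))) hcoef
      refine h2.trans (le_of_eq ?_)
      have e1 : (x - x') + (x' - x) = x' - x := by omega
      rw [e1]
      ring
  refine (sum_le_sum h1).trans ?_
  rw [sum_add_distrib, ← first_moment_eq]
  have h2 := hN₁ N hNN₁ y
  have hF0 : ∀ m, 0 ≤ F m ^ 4 := fun m => by have := F_one_le m; positivity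
  have h3 : ∀ x ∈ Icc 1 y, ∑ x' ∈ (Icc 1 y).erase x, (C2 * (N / Real.log N ^ 4) / 4)
        * (F x ^ 4 + F x' ^ 4 + F (x + x') ^ 4 + F ((x - x') + (x' - x)) ^ 4)
      ≤ (C2 * (N / Real.log N ^ 4) / 4) * (y * F x ^ 4 + y * E + 2 * y * E + 2 * y * E) := by
    intro x hx
    rw [← mul_sum]
    refine mul_le_mul_of_nonneg_left ?_ (by positivity)
    rw [sum_add_distrib, sum_add_distrib, sum_add_distrib]
    have g1 : ∑ x' ∈ (Icc 1 y).erase x, F x ^ 4 ≤ y * F x ^ 4 := by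
      rw [sum_const, nsmul_eq_mul]
      refine mul_le_mul_of_nonneg_right ?_ (hF0 x)
      have : ((Icc 1 y).erase x).card ≤ y := by
        refine (card_le_card (erase_subset _ _)).trans ?_
        simp
      exact_mod_cast this
    have g2 : ∑ x' ∈ (Icc 1 y).erase x, F x' ^ 4 ≤ y * E :=
      (sum_le_sum_of_subset_of_nonneg (erase_subset _ _) (fun m _ _ => hF0 m)).trans (avg_F4 y)
    have g3 : ∑ x' ∈ (Icc 1 y).erase x, F (x + x') ^ 4 ≤ 2 * y * E :=
      (sum_le_sum_of_subset_of_nonneg (erase_subset _ _) (fun m _ _ => hF0 _)).trans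
        (sum_shift_le x y hx)
    have g4 := sum_diff_le x y hx
    linarith
  have h4 := sum_le_sum h3
  have h5 : ∑ x ∈ Icc 1 y, (C2 * (N / Real.log N ^ 4) / 4)
      * (y * F x ^ 4 + y * E + 2 * y * E + 2 * y * E)
      ≤ 2 * C2 * E * (N / Real.log N ^ 4 * (y : ℝ) ^ 2) := by
    rw [← mul_sum, sum_add_distrib, sum_add_distrib, sum_add_distrib, ← mul_sum]
    have g1 := avg_F4 y
    have g2 : (y : ℝ) * ∑ x ∈ Icc 1 y, F x ^ 4 ≤ y * (y * E) :=
      mul_le_mul_of_nonneg_left g1 (Nat.cast_nonneg y)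
    simp only [sum_const, Nat.card_Icc, nsmul_eq_mul, add_tsub_cancel_right]
    have hcoef : 0 ≤ C2 * (N / Real.log N ^ 4) / 4 := by positivity
    calc C2 * (N / Real.log N ^ 4) / 4 * ((y : ℝ) * ∑ x ∈ Icc 1 y, F x ^ 4 + y * (y * E)
          + y * (2 * y * E) + y * (2 * y * E))
        ≤ C2 * (N / Real.log N ^ 4) / 4 * (y * (y * E) + y * (y * E)
          + y * (2 * y * E) + y * (2 * y * E)) :=
          mul_le_mul_of_nonneg_left (by linarith) hcoef
      _ = (3 / 2) * (C2 * E * (N / Real.log N ^ 4 * (y : ℝ) ^ 2)) := by ring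
      _ ≤ 2 * C2 * E * (N / Real.log N ^ 4 * (y : ℝ) ^ 2) := by
          have : 0 ≤ C2 * E * (N / Real.log N ^ 4 * (y : ℝ) ^ 2) := by positivity
          nlinarith
  have h6 : 0 ≤ (N : ℝ) / Real.log N ^ 2 * y := by positivity
  have h7 : 0 ≤ (N : ℝ) / Real.log N ^ 4 * (y : ℝ) ^ 2 := by positivity
  have h8 : 0 ≤ 2 * C2 * E := by positivity
  calc _ ≤ C1 * (N / Real.log N ^ 2 * y)
        + 2 * C2 * E * (N / Real.log N ^ 4 * (y : ℝ) ^ 2) := add_le_add h2 (h4.trans h5)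
    _ ≤ _ := by nlinarith [mul_nonneg h8 h6, mul_nonneg hC1.le h7]

end Pool.Agent.H70.SP
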