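import Mathlib
import Pool.Agent.H70.SP.Second

/-!
Lower bound for the first moment.
-/

set_option autoImplicit false

namespace Pool.Agent.H70.SP

open Finset Pool.Agent.H70.LP

/-- odd primes up to `N` -/
def Pr (N : ℕ) : Finset ℕ := (Icc 3 N).filter Nat.Prime

theorem Pr_card (N : ℕ) (hN : 2 ≤ N) : pc N = (Pr N).card + 1 := by
  have h1 : (Icc 1 N).filter Nat.Prime = insert 2 (Pr N) := by
    ext p
    simp only [Pr, mem_insert, mem_filter, mem_Icc]
    constructor
    · rintro ⟨⟨h2, h3⟩, h4⟩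
      have := h4.two_le
      rcases eq_or_ne p 2 with h | h
      · exact Or.inl h
      · exact Or.inr ⟨⟨by omega, h3⟩, h4⟩
    · rintro (rfl | ⟨⟨h2, h3⟩, h4⟩)
      · exact ⟨⟨by omega, hN⟩, Nat.prime_two⟩
      · exact ⟨⟨by omega, h3⟩, h4⟩
  unfold pc
  rw [h1, card_insert_of_notMem]
  simp [Pr]

/-- pairs of distinct odd primes in a common block of length `2 * y` -/
def Off (N y : ℕ) : Finset (ℕ × ℕ) :=
  (Pr N).offDiag.filter (fun pq => pq.1 / (2 * y) = pq.2 / (2 * y))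

theorem off_le (N y : ℕ) (hy : 1 ≤ y) :
    (Off N y).card ≤ 2 * ∑ x ∈ Icc 1 y, (P2 N x).card := by
  classical
  set T : Finset (ℕ × ℕ) := (Icc 1 y).biUnion (fun x => (P2 N x).image (fun n => (n, x))) with hT
  have hTcard : T.card ≤ ∑ x ∈ Icc 1 y, (P2 N x).card :=
    card_biUnion_le.trans (sum_le_sum fun x _ => card_image_le)
  have hinj : (Off N y).card ≤ (T ×ˢ (univ : Finset Bool)).card := by
    refine card_le_card_of_injOn
      (fun pq => (((pq.1 + pq.2) / 2, ((pq.1 - pq.2) + (pq.2 - pq.1)) / 2), decide (pq.1 < pq.2)))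
      ?_ ?_
    · intro ⟨p, q⟩ hpq
      simp only [Off, Pr, coe_filter, mem_offDiag, mem_filter, mem_Icc, Set.mem_ofPred_eq] at hpq
      obtain ⟨⟨⟨⟨hp3, hpN⟩, hp⟩, ⟨⟨hq3, hqN⟩, hq⟩, hne⟩, hblk⟩ := hpq
      have hpo : p % 2 = 1 := hp.eq_two_or_odd.resolve_left (by omega)
      have hqo : q % 2 = 1 := hq.eq_two_or_odd.resolve_left (by omega)
      have h2y : 0 < 2 * y := by omega
      have e1 := Nat.div_add_mod p (2 * y)
      have e2 := Nat.div_add_mod q (2 * y)
      have e3 := Nat.mod_lt p h2y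
      have e4 := Nat.mod_lt q h2y
      rw [hblk] at e1
      simp only [coe_product, coe_univ, Set.mem_prod, mem_coe, Set.mem_univ, and_true, hT,
        mem_biUnion, mem_image, P2, mem_filter, mem_Icc, Prod.mk.injEq]
      refine ⟨((p - q) + (q - p)) / 2, ⟨by omega, by omega⟩, (p + q) / 2,
        ⟨⟨by omega, by omega⟩, ?_, ?_⟩, rfl, rfl⟩
      · rcases lt_or_gt_of_ne hne with h | h
        · have : (p + q) / 2 - ((p - q) + (q - p)) / 2 = p := by omega
          rw [this]; exact hp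
        · have : (p + q) / 2 - ((p - q) + (q - p)) / 2 = q := by omega
          rw [this]; exact hq
      · rcases lt_or_gt_of_ne hne with h | h
        · have : (p + q) / 2 + ((p - q) + (q - p)) / 2 = q := by omega
          rw [this]; exact hq
        · have : (p + q) / 2 + ((p - q) + (q - p)) / 2 = p := by omega
          rw [this]; exact hp
    · intro ⟨p, q⟩ hpq ⟨p', q'⟩ hpq' heq
      simp only [Off, Pr, coe_filter, mem_offDiag, mem_filter, mem_Icc, Set.mem_ofPred_eq] at hpq hpq'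
      obtain ⟨⟨⟨⟨hp3, hpN⟩, hp⟩, ⟨⟨hq3, hqN⟩, hq⟩, hne⟩, hblk⟩ := hpq
      obtain ⟨⟨⟨⟨hp3', hpN'⟩, hp'⟩, ⟨⟨hq3', hqN'⟩, hq'⟩, hne'⟩, hblk'⟩ := hpq'
      have hpo : p % 2 = 1 := hp.eq_two_or_odd.resolve_left (by omega)
      have hqo : q % 2 = 1 := hq.eq_two_or_odd.resolve_left (by omega)
      have hpo' : p' % 2 = 1 := hp'.eq_two_or_odd.resolve_left (by omega)
      have hqo' : q' % 2 = 1 := hq'.eq_two_or_odd.resolve_left (by omega)
      simp only [Prod.mk.injEq, decide_eq_decide] at heq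
      obtain ⟨⟨h1, h2⟩, h3⟩ := heq
      rw [Prod.mk.injEq]
      by_cases h : p < q
      · have h' := h3.1 h
        omega
      · have h' : ¬ p' < q' := fun hc => h (h3.2 hc)
        omega
  rw [card_product] at hinj
  have h2 : (univ : Finset Bool).card = 2 := by simp
  rw [h2] at hinj
  omega

theorem off_card (N y : ℕ) :
    ((Off N y).card : ℝ) = ∑ i ∈ range (N / (2 * y) + 1),
      ((((Pr N).filter (fun p => p / (2 * y) = i)).card : ℝ) ^ 2
        - (((Pr N).filter (fun p => p / (2 * y) = i)).card : ℝ)) := by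
  classical
  have h1 : (Off N y).card = ∑ i ∈ range (N / (2 * y) + 1),
      ((Off N y).filter (fun pq => pq.1 / (2 * y) = i)).card := by
    refine card_eq_sum_card_fiberwise (fun pq hpq => ?_)
    simp only [Off, Pr, coe_filter, mem_offDiag, mem_filter, mem_Icc, Set.mem_ofPred_eq] at hpq
    simp only [coe_range, Set.mem_Iio]
    have := Nat.div_le_div_right (c := 2 * y) hpq.1.1.1.2
    omega
  rw [h1]
  push_cast
  refine sum_congr rfl (fun i _ => ?_)
  have h2 : (Off N y).filter (fun pq => pq.1 / (2 * y) = i)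
      = ((Pr N).filter (fun p => p / (2 * y) = i)).offDiag := by
    ext ⟨p, q⟩
    simp only [Off, mem_filter, mem_offDiag]
    constructor
    · rintro ⟨⟨⟨h3, h4, h5⟩, h6⟩, h7⟩
      exact ⟨⟨h3, h7⟩, ⟨h4, by rw [← h6]; exact h7⟩, h5⟩
    · rintro ⟨⟨h3, h7⟩, ⟨h4, h8⟩, h5⟩
      exact ⟨⟨⟨h3, h4, h5⟩, by rw [h7, h8]⟩, h7⟩
  rw [h2, offDiag_card]
  set a := ((Pr N).filter (fun p => p / (2 * y) = i)).card
  have h3 : a ≤ a * a := Nat.le_mul_self a
  rw [Nat.cast_sub h3]
  push_cast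
  ring

theorem first_lower : ∃ c : ℝ, 0 < c ∧ ∃ N₀ : ℕ, ∀ N : ℕ, N₀ ≤ N → ∀ y : ℕ,
    9 * Real.log N ≤ y → y ≤ N →
    c * (N / Real.log N ^ 2 * y) ≤ ∑ n ∈ Icc 1 N, (X N y n : ℝ) := by
  classical
  obtain ⟨n₀, hn₀⟩ := le_pc
  have ev : ∀ᶠ N : ℕ in Filter.atTop, 6 * Real.log (N : ℝ) ≤ N ∧ 1 ≤ Real.log (N : ℝ) := by
    have h1 : ∀ᶠ x : ℝ in Filter.atTop, ‖Real.log x‖ ≤ (1 / 6) * ‖id x‖ :=
      Real.isLittleO_log_id_atTop.bound (by norm_num)
    have h2 : ∀ᶠ x : ℝ in Filter.atTop, 6 * Real.log x ≤ x ∧ 1 ≤ Real.log x := by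
      filter_upwards [h1, Filter.eventually_ge_atTop (0 : ℝ),
        Real.tendsto_log_atTop.eventually_ge_atTop 1] with x hx hx0 hx1
      rw [Real.norm_of_nonneg (by linarith), Real.norm_of_nonneg (by simpa using hx0)] at hx
      simp only [id] at hx
      exact ⟨by linarith, hx1⟩
    exact tendsto_natCast_atTop_atTop.eventually h2
  obtain ⟨N₂, hN₂⟩ := Filter.eventually_atTop.1 ev
  refine ⟨1 / 54, by norm_num, max (max n₀ N₂) 2, fun N hN y hy hyN => ?_⟩
  have hNn₀ : n₀ ≤ N := le_trans (le_trans (le_max_left _ _) (le_max_left _ _)) hN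
  have hNN₂ : N₂ ≤ N := le_trans (le_trans (le_max_right _ _) (le_max_left _ _)) hN
  have hN2 : 2 ≤ N := le_trans (le_max_right _ _) hN
  obtain ⟨h6, hL1⟩ := hN₂ N hNN₂
  set L := Real.log (N : ℝ) with hL
  have hNr : (2 : ℝ) ≤ N := by exact_mod_cast hN2
  have hyr : (9 : ℝ) ≤ y := by linarith
  have hy1 : 1 ≤ y := by
    have : (1 : ℝ) ≤ y := by linarith
    exact_mod_cast this
  have hyNr : (y : ℝ) ≤ N := by exact_mod_cast hyN
  -- number of odd primes
  have hA : (N : ℝ) / (3 * L) ≤ ((Pr N).card : ℝ) := by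
    have h1 := hn₀ N hNn₀
    rw [Pr_card N hN2] at h1
    push_cast at h1
    have h2 : (N : ℝ) / 2 / L = N / (3 * L) + N / (6 * L) := by
      field_simp; ring
    have h3 : 1 ≤ (N : ℝ) / (6 * L) := by
      rw [le_div_iff₀ (by linarith)]; linarith
    rw [← hL] at h1
    linarith
  set A : ℝ := ((Pr N).card : ℝ) with hAdef
  set M : ℕ := N / (2 * y) + 1 with hM
  have hMle : (M : ℝ) ≤ 3 * N / (2 * y) := by
    have h1 : ((N / (2 * y) : ℕ) : ℝ) ≤ (N : ℝ) / ((2 * y : ℕ) : ℝ) := Nat.cast_div_le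
    push_cast at h1
    rw [hM]
    push_cast
    have h2 : (1 : ℝ) ≤ 2 * N / (2 * y) := by
      rw [le_div_iff₀ (by linarith)]; linarith
    have h3 : (3 : ℝ) * N / (2 * y) = N / (2 * y) + 2 * N / (2 * y) := by ring
    linarith
  have hM0 : (0 : ℝ) < M := by rw [hM]; positivity
  -- fiber sizes
  set a : ℕ → ℝ := fun i => (((Pr N).filter (fun p => p / (2 * y) = i)).card : ℝ) with ha
  have hsuma : ∑ i ∈ range M, a i = A := by
    have h1 : (Pr N).card = ∑ i ∈ range M, ((Pr N).filter (fun p => p / (2 * y) = i)).card := by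
      refine card_eq_sum_card_fiberwise (fun p hp => ?_)
      simp only [Pr, coe_filter, mem_Icc, Set.mem_ofPred_eq] at hp
      simp only [coe_range, Set.mem_Iio]
      have := Nat.div_le_div_right (c := 2 * y) hp.1.2
      omega
    rw [hAdef, h1]
    push_cast
    rfl
  have hcs : A ^ 2 ≤ M * ∑ i ∈ range M, a i ^ 2 := by
    have h1 := sq_sum_le_card_mul_sum_sq (s := range M) (f := a)
    rw [hsuma, card_range] at h1
    exact h1
  have hoff : ((Off N y).card : ℝ) = ∑ i ∈ range M, a i ^ 2 - A := by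
    rw [off_card, ← hsuma, ← sum_sub_distrib]
  have hoffle : ((Off N y).card : ℝ) ≤ 2 * ∑ n ∈ Icc 1 N, (X N y n : ℝ) := by
    rw [first_moment_eq]
    have := off_le N y hy1
    exact_mod_cast this
  have hA0 : 0 < A := lt_of_lt_of_le (by positivity) hA
  have h1 : A ^ 2 / M ≤ ∑ i ∈ range M, a i ^ 2 := by
    rw [div_le_iff₀ hM0]; linarith
  have h2 : A * (2 * y / (9 * L)) ≤ A ^ 2 / M := by
    have h0 : A ^ 2 / M = A * (A / M) := by ring
    rw [h0]
    refine mul_le_mul_of_nonneg_left ?_ hA0.le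
    have h3 : (N : ℝ) / (3 * L) / (3 * N / (2 * y)) ≤ A / M := div_le_div₀ hA0.le hA hM0 hMle
    have h4 : (N : ℝ) / (3 * L) / (3 * N / (2 * y)) = 2 * y / (9 * L) := by
      have : (y : ℝ) ≠ 0 := by linarith
      have : L ≠ 0 := by linarith
      have : (N : ℝ) ≠ 0 := by linarith
      field_simp
      ring
    linarith
  have h3 : 1 ≤ (y : ℝ) / (9 * L) := by rw [le_div_iff₀ (by linarith)]; linarith
  have h4 : A * (y / (9 * L)) ≤ 2 * ∑ n ∈ Icc 1 N, (X N y n : ℝ) := by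
    have h5 : (2 : ℝ) * y / (9 * L) = y / (9 * L) + y / (9 * L) := by ring
    rw [h5] at h2
    nlinarith
  have h5 : (N : ℝ) / (3 * L) * (y / (9 * L)) ≤ A * (y / (9 * L)) :=
    mul_le_mul_of_nonneg_right hA (by linarith)
  have h6 : (N : ℝ) / (3 * L) * (y / (9 * L)) = 2 * (1 / 54 * (N / L ^ 2 * y)) := by
    have : L ≠ 0 := by linarith
    field_simp
    ring
  linarith

end Pool.Agent.H70.SP
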